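import Mathlib

set_option autoImplicit false

open Finset

namespace Pool.Agent.H78.Ill

/-- the Lagrange weights (absolute values) of the nodes `t k`, `k ∈ N` -/
noncomputable def wt {ι : Type} [LinearOrder ι] (t : ι → ℝ) (N : Finset (ι)) (k : ι) : ℝ :=
  ∏ l ∈ N.erase k, |t k - t l|⁻¹

variable {ι : Type} [LinearOrder ι] {t : ι → ℝ}

theorem wt_pos (ht : StrictMono t) (N : Finset (ι)) (k : ι) : 0 < wt t N k := by
  unfold wt
  apply Finset.prod_pos
  intro l hl
  have h1 : l ≠ k := (Finset.mem_erase.mp hl).1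
  have h2 : t k - t l ≠ 0 := sub_ne_zero.mpr (fun h => h1 (ht.injective h).symm)
  positivity

theorem wt_mul (ht : StrictMono t) {N : Finset (ι)} {a k : ι} (ha : a ∈ N) (hk : k ≠ a) :
    wt t N k * |t k - t a| = wt t (N.erase a) k := by
  unfold wt
  have ha' : a ∈ N.erase k := Finset.mem_erase.mpr ⟨hk.symm, ha⟩
  have h1 := Finset.mul_prod_erase (N.erase k) (fun l => |t k - t l|⁻¹) ha'
  have h2 : (N.erase k).erase a = (N.erase a).erase k := Finset.erase_right_comm
  rw [← h1, h2]
  have h3 : |t k - t a| ≠ 0 := by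
    rw [ne_eq, abs_eq_zero, sub_eq_zero]
    exact fun h => hk (ht.injective h)
  field_simp

theorem sum_wt_mul (ht : StrictMono t) {N : Finset (ι)} {a : ι} (ha : a ∈ N) :
    ∑ k ∈ N, wt t N k * |t k - t a| = ∑ k ∈ N.erase a, wt t (N.erase a) k := by
  rw [← Finset.add_sum_erase N _ ha]
  simp only [sub_self, abs_zero, mul_zero, zero_add]
  exact Finset.sum_congr rfl fun k hk => wt_mul ht ha (Finset.mem_erase.mp hk).1

theorem sum_split (ht : StrictMono t) {N : Finset (ι)} (hN : N.Nonempty) :
    (t (N.max' hN) - t (N.min' hN)) * ∑ k ∈ N, wt t N k =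
      ∑ k ∈ N.erase (N.min' hN), wt t (N.erase (N.min' hN)) k +
      ∑ k ∈ N.erase (N.max' hN), wt t (N.erase (N.max' hN)) k := by
  rw [← sum_wt_mul ht (N.min'_mem hN), ← sum_wt_mul ht (N.max'_mem hN), ← Finset.sum_add_distrib,
    Finset.mul_sum]
  refine Finset.sum_congr rfl fun k hk => ?_
  have h1 : t (N.min' hN) ≤ t k := ht.monotone (N.min'_le k hk)
  have h2 : t k ≤ t (N.max' hN) := ht.monotone (N.le_max' k hk)
  rw [abs_of_nonneg (by linarith), abs_of_nonpos (by linarith)]
  ring

theorem single_split (ht : StrictMono t) {N : Finset (ι)} (hN : N.Nonempty) {k : ι}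
    (hk : k ∈ N) :
    (t (N.max' hN) - t (N.min' hN)) * wt t N k =
      wt t N k * |t k - t (N.min' hN)| + wt t N k * |t k - t (N.max' hN)| := by
  have h1 : t (N.min' hN) ≤ t k := ht.monotone (N.min'_le k hk)
  have h2 : t k ≤ t (N.max' hN) := ht.monotone (N.le_max' k hk)
  rw [abs_of_nonneg (by linarith), abs_of_nonpos (by linarith)]
  ring

theorem sum_wt_nonneg (ht : StrictMono t) (N M : Finset (ι)) : 0 ≤ ∑ k ∈ M, wt t N k :=
  Finset.sum_nonneg fun k _ => (wt_pos ht N k).le

/-- a single weight is at most half of the sum -/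
theorem wt_single_le (ht : StrictMono t) : ∀ (c : ℕ) (N : Finset (ι)), N.card = c + 2 →
    ∀ k ∈ N, 2 * wt t N k ≤ ∑ l ∈ N, wt t N l := by
  intro c
  induction c with
  | zero =>
    intro N hN k hk
    obtain ⟨x, y, hxy, rfl⟩ := Finset.card_eq_two.mp hN
    have e1 : wt t {x, y} x = |t x - t y|⁻¹ := by
      unfold wt
      have : ({x, y} : Finset (ι)).erase x = {y} := by
        ext z; simp only [Finset.mem_erase, Finset.mem_insert, Finset.mem_singleton]
        constructor
        · rintro ⟨h1, h2 | h2⟩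
          · exact absurd h2 h1
          · exact h2
        · rintro rfl; exact ⟨hxy.symm, Or.inr rfl⟩
      rw [this, Finset.prod_singleton]
    have e2 : wt t {x, y} y = |t x - t y|⁻¹ := by
      unfold wt
      have : ({x, y} : Finset (ι)).erase y = {x} := by
        ext z; simp only [Finset.mem_erase, Finset.mem_insert, Finset.mem_singleton]
        constructor
        · rintro ⟨h1, h2 | h2⟩
          · exact h2
          · exact absurd h2 h1
        · rintro rfl; exact ⟨hxy, Or.inl rfl⟩
      rw [this, Finset.prod_singleton, abs_sub_comm]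
    rw [Finset.sum_pair hxy, e1, e2]
    rcases Finset.mem_insert.mp hk with h | h
    · rw [h, e1]; linarith
    · rw [Finset.mem_singleton.mp h, e2]; linarith
  | succ c ih =>
    intro N hN k hk
    have hne : N.Nonempty := ⟨k, hk⟩
    have hcard1 : (N.erase (N.min' hne)).card = c + 2 := by
      rw [Finset.card_erase_of_mem (N.min'_mem hne), hN]; rfl
    have hcard2 : (N.erase (N.max' hne)).card = c + 2 := by
      rw [Finset.card_erase_of_mem (N.max'_mem hne), hN]; rfl
    have hlt : t (N.min' hne) < t (N.max' hne) := by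
      apply ht
      exact Finset.min'_lt_max'_of_card N (by omega)
    have b1 : 2 * (wt t N k * |t k - t (N.min' hne)|) ≤
        ∑ l ∈ N.erase (N.min' hne), wt t (N.erase (N.min' hne)) l := by
      by_cases h : k = N.min' hne
      · rw [← h]; simp only [sub_self, abs_zero, mul_zero]; exact sum_wt_nonneg ht _ _
      · rw [wt_mul ht (N.min'_mem hne) h]
        exact ih _ hcard1 k (Finset.mem_erase.mpr ⟨h, hk⟩)
    have b2 : 2 * (wt t N k * |t k - t (N.max' hne)|) ≤
        ∑ l ∈ N.erase (N.max' hne), wt t (N.erase (N.max' hne)) l := by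
      by_cases h : k = N.max' hne
      · rw [← h]; simp only [sub_self, abs_zero, mul_zero]; exact sum_wt_nonneg ht _ _
      · rw [wt_mul ht (N.max'_mem hne) h]
        exact ih _ hcard2 k (Finset.mem_erase.mpr ⟨h, hk⟩)
    have h1 := sum_split ht hne
    have h2 := single_split ht hne hk
    have h3 : (t (N.max' hne) - t (N.min' hne)) * (2 * wt t N k) ≤
        (t (N.max' hne) - t (N.min' hne)) * ∑ l ∈ N, wt t N l := by
      rw [h1]; nlinarith
    exact le_of_mul_le_mul_left h3 (by linarith)

/-- two weights of non adjacent nodes are together at most half of the sum -/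
theorem wt_pair_le (ht : StrictMono t) : ∀ (c : ℕ) (N : Finset (ι)), N.card = c →
    ∀ i ∈ N, ∀ m ∈ N, ∀ j ∈ N, i < m → m < j →
      2 * (wt t N i + wt t N j) ≤ ∑ l ∈ N, wt t N l := by
  intro c
  induction c with
  | zero =>
    intro N hN i hi
    rw [Finset.card_eq_zero] at hN
    subst hN
    simp at hi
  | succ c ih =>
    intro N hN i hi m hm j hj him hmj
    have hne : N.Nonempty := ⟨i, hi⟩
    have hij : i < j := him.trans hmj
    have hcard1 : (N.erase (N.min' hne)).card = c := by
      rw [Finset.card_erase_of_mem (N.min'_mem hne), hN]; rfl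
    have hcard2 : (N.erase (N.max' hne)).card = c := by
      rw [Finset.card_erase_of_mem (N.max'_mem hne), hN]; rfl
    have hmini : N.min' hne ≤ i := N.min'_le i hi
    have hmaxj : j ≤ N.max' hne := N.le_max' j hj
    have hlt : t (N.min' hne) < t (N.max' hne) := ht (by
      exact lt_of_le_of_lt hmini (lt_of_lt_of_le hij hmaxj))
    have hjmin : j ≠ N.min' hne := (lt_of_le_of_lt hmini hij).ne'
    have hmmin : m ≠ N.min' hne := (lt_of_le_of_lt hmini him).ne'
    have himax : i ≠ N.max' hne := (lt_of_lt_of_le hij hmaxj).ne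
    have hmmax : m ≠ N.max' hne := (lt_of_lt_of_le hmj hmaxj).ne
    have b1 : 2 * (wt t N i * |t i - t (N.min' hne)| + wt t N j * |t j - t (N.min' hne)|) ≤
        ∑ l ∈ N.erase (N.min' hne), wt t (N.erase (N.min' hne)) l := by
      rw [wt_mul ht (N.min'_mem hne) hjmin]
      by_cases h : i = N.min' hne
      · rw [← h]; simp only [sub_self, abs_zero, mul_zero, zero_add]
        have hc2 : 1 < (N.erase i).card := by
          rw [Finset.one_lt_card]
          exact ⟨m, Finset.mem_erase.mpr ⟨him.ne', hm⟩, j, Finset.mem_erase.mpr ⟨hij.ne', hj⟩,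
            hmj.ne⟩
        refine wt_single_le ht ((N.erase i).card - 2) _ (by omega) j
          (Finset.mem_erase.mpr ⟨hij.ne', hj⟩)
      · rw [wt_mul ht (N.min'_mem hne) h]
        exact ih _ hcard1 i (Finset.mem_erase.mpr ⟨h, hi⟩) m (Finset.mem_erase.mpr ⟨hmmin, hm⟩) j
          (Finset.mem_erase.mpr ⟨hjmin, hj⟩) him hmj
    have b2 : 2 * (wt t N i * |t i - t (N.max' hne)| + wt t N j * |t j - t (N.max' hne)|) ≤
        ∑ l ∈ N.erase (N.max' hne), wt t (N.erase (N.max' hne)) l := by
      rw [wt_mul ht (N.max'_mem hne) himax]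
      by_cases h : j = N.max' hne
      · rw [← h]; simp only [sub_self, abs_zero, mul_zero, add_zero]
        have hc2 : 1 < (N.erase j).card := by
          rw [Finset.one_lt_card]
          exact ⟨i, Finset.mem_erase.mpr ⟨hij.ne, hi⟩, m, Finset.mem_erase.mpr ⟨hmj.ne, hm⟩,
            him.ne⟩
        refine wt_single_le ht ((N.erase j).card - 2) _ (by omega) i
          (Finset.mem_erase.mpr ⟨hij.ne, hi⟩)
      · rw [wt_mul ht (N.max'_mem hne) h]
        exact ih _ hcard2 i (Finset.mem_erase.mpr ⟨himax, hi⟩) m (Finset.mem_erase.mpr ⟨hmmax, hm⟩) j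
          (Finset.mem_erase.mpr ⟨h, hj⟩) him hmj
    have h1 := sum_split ht hne
    have h2 := single_split ht hne hi
    have h2' := single_split ht hne hj
    have h3 : (t (N.max' hne) - t (N.min' hne)) * (2 * (wt t N i + wt t N j)) ≤
        (t (N.max' hne) - t (N.min' hne)) * ∑ l ∈ N, wt t N l := by
      rw [h1]; nlinarith
    exact le_of_mul_le_mul_left h3 (by linarith)

end Pool.Agent.H78.Ill
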