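import Mathlib
import Pool.Agent.H78.Ill.CA

set_option autoImplicit false

open Finset Polynomial

namespace Pool.Agent.H78.Ill

variable {ι : Type} [LinearOrder ι] {t : ι → ℝ}

/-- sign of the node `k` in `N`: alternating along `N`, `+` at the last node -/
noncomputable def sg (N : Finset (ι)) (k : ι) : ℝ := (-1) ^ (N.filter (fun l => k < l)).card

theorem sg_sq (N : Finset (ι)) (k : ι) : sg N k * sg N k = 1 := by
  unfold sg
  rw [← mul_pow]; norm_num

theorem sg_eq_or (N : Finset (ι)) (k : ι) : sg N k = 1 ∨ sg N k = -1 := by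
  unfold sg
  exact neg_one_pow_eq_or ℝ _

theorem sg_ne {N : Finset (ι)} {k j : ι} (h : sg N k ≠ sg N j) : sg N k = - sg N j := by
  rcases sg_eq_or N k with h1 | h1 <;> rcases sg_eq_or N j with h2 | h2
  · exact absurd (h1.trans h2.symm) h
  · rw [h1, h2]; norm_num
  · rw [h1, h2]
  · exact absurd (h1.trans h2.symm) h

theorem prod_sub_eq (ht : StrictMono t) (N : Finset (ι)) (k : ι) :
    ∏ l ∈ N.erase k, (t k - t l) = sg N k * ∏ l ∈ N.erase k, |t k - t l| := by
  have h1 : ∀ l ∈ N.erase k, t k - t l = (if k < l then (-1 : ℝ) else 1) * |t k - t l| := by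
    intro l hl
    have hne := (Finset.mem_erase.mp hl).1
    split_ifs with h
    · have := ht h
      rw [abs_of_neg (by linarith)]; ring
    · have h2 : l < k := lt_of_le_of_ne (not_lt.mp h) hne
      have := ht h2
      rw [abs_of_pos (by linarith)]; ring
  rw [Finset.prod_congr rfl h1, Finset.prod_mul_distrib]
  congr 1
  rw [Finset.prod_ite, Finset.prod_const, Finset.prod_const_one, mul_one]
  unfold sg
  congr 2
  ext l
  simp only [Finset.mem_filter, Finset.mem_erase]
  constructor
  · rintro ⟨⟨_, h2⟩, h3⟩; exact ⟨h2, h3⟩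
  · rintro ⟨h2, h3⟩; exact ⟨⟨h3.ne', h2⟩, h3⟩

theorem inv_prod_eq (ht : StrictMono t) (N : Finset (ι)) (k : ι) :
    (∏ l ∈ N.erase k, (t k - t l))⁻¹ = sg N k * wt t N k := by
  rw [prod_sub_eq ht, mul_inv]
  unfold wt
  rw [Finset.prod_inv_distrib]
  congr 1
  rcases sg_eq_or N k with h | h <;> rw [h] <;> norm_num

/-- the affine dependency of `d + 2` points of the moment curve of degree `d` -/
theorem dependency (ht : StrictMono t) {d : ℕ} {N : Finset (ι)} (hN : N.card = d + 2)
    (p : ℝ[X]) (hp : p.natDegree ≤ d) :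
    ∑ k ∈ N, sg N k * wt t N k * p.eval (t k) = 0 := by
  have hinj : Set.InjOn t (N : Set (ι)) := ht.injective.injOn
  have hdeg : p.degree < N.card := by
    rw [hN]
    refine lt_of_le_of_lt Polynomial.degree_le_natDegree ?_
    exact_mod_cast (by omega : p.natDegree < d + 2)
  have h1 := Lagrange.coeff_eq_sum hinj hdeg
  rw [Polynomial.coeff_eq_zero_of_natDegree_lt (by omega)] at h1
  rw [h1]
  refine Finset.sum_congr rfl fun k _ => ?_
  rw [div_eq_mul_inv, inv_prod_eq ht]
  ring

theorem exists_poly_of_dep (ht : StrictMono t) {d : ℕ} {N : Finset (ι)} (hN : N.card = d + 2)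
    (f : ι → ℝ) (hf : ∑ k ∈ N, sg N k * wt t N k * f k = 0) :
    ∃ p : ℝ[X], p.natDegree ≤ d ∧ ∀ k ∈ N, p.eval (t k) = f k := by
  classical
  have hinj : Set.InjOn t (N : Set (ι)) := ht.injective.injOn
  refine ⟨Lagrange.interpolate N t f, ?_, fun k hk => Lagrange.eval_interpolate_at_node f hinj hk⟩
  have hdeg := Lagrange.degree_interpolate_lt f hinj
  have h1 := Lagrange.coeff_eq_sum hinj hdeg
  have h2 : (Lagrange.interpolate N t f).coeff (d + 1) = 0 := by
    rw [hN] at h1
    simp only [Nat.add_one_sub_one] at h1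
    rw [h1, ← hf]
    refine Finset.sum_congr rfl fun k hk => ?_
    rw [div_eq_mul_inv, inv_prod_eq ht, Lagrange.eval_interpolate_at_node f hinj hk]
    ring
  rw [Polynomial.natDegree_le_iff_coeff_eq_zero]
  intro m hm
  rcases Nat.lt_or_ge m (d + 2) with h | h
  · have : m = d + 1 := by omega
    rw [this, h2]
  · apply Polynomial.coeff_eq_zero_of_degree_lt
    refine lt_of_lt_of_le hdeg ?_
    rw [hN]
    exact_mod_cast h

theorem half_sum (ht : StrictMono t) {d : ℕ} {N : Finset (ι)} (hN : N.card = d + 2)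
    (j : ι) :
    2 * ∑ k ∈ N.filter (fun k => sg N k = sg N j), wt t N k = ∑ k ∈ N, wt t N k ∧
    2 * ∑ k ∈ N.filter (fun k => ¬ sg N k = sg N j), wt t N k = ∑ k ∈ N, wt t N k := by
  classical
  have h1 := dependency ht hN (1 : ℝ[X]) (by simp)
  simp only [Polynomial.eval_one, mul_one] at h1
  have h2 := Finset.sum_filter_add_sum_filter_not N (fun k => sg N k = sg N j) (fun k => wt t N k)
  have h3 := Finset.sum_filter_add_sum_filter_not N (fun k => sg N k = sg N j)
    (fun k => sg N k * wt t N k)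
  rw [h1] at h3
  have h4 : ∑ k ∈ N.filter (fun k => sg N k = sg N j), sg N k * wt t N k =
      sg N j * ∑ k ∈ N.filter (fun k => sg N k = sg N j), wt t N k := by
    rw [Finset.mul_sum]
    refine Finset.sum_congr rfl fun k hk => ?_
    rw [(Finset.mem_filter.mp hk).2]
  have h5 : ∑ k ∈ N.filter (fun k => ¬ sg N k = sg N j), sg N k * wt t N k =
      - (sg N j * ∑ k ∈ N.filter (fun k => ¬ sg N k = sg N j), wt t N k) := by
    rw [Finset.mul_sum, ← Finset.sum_neg_distrib]
    refine Finset.sum_congr rfl fun k hk => ?_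
    rw [sg_ne (Finset.mem_filter.mp hk).2]; ring
  rw [h4, h5] at h3
  have h6 : ∑ k ∈ N.filter (fun k => sg N k = sg N j), wt t N k =
      ∑ k ∈ N.filter (fun k => ¬ sg N k = sg N j), wt t N k := by
    rcases sg_eq_or N j with h | h <;> rw [h] at h3 ⊢ <;> linarith
  constructor <;> linarith

/-- a polynomial separating the two nodes `i`, `j` of the circuit `N` -/
theorem exists_poly_circuit (ht : StrictMono t) {d : ℕ} {N : Finset (ι)} (hN : N.card = d + 2)
    {i j : ι} (hi : i ∈ N) (hj : j ∈ N) (hij : i ≠ j)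
    (hw : 2 * (wt t N i + wt t N j) ≤ ∑ k ∈ N, wt t N k) :
    ∃ p : ℝ[X], p.natDegree ≤ d ∧ p.eval (t i) = 0 ∧ p.eval (t j) = 1 ∧
      ∀ k ∈ N, 0 ≤ p.eval (t k) ∧ p.eval (t k) ≤ 1 := by
  classical
  set B := N.filter (fun k => ¬ sg N k = sg N j) with hB
  set Q := ∑ k ∈ B.erase i, wt t N k with hQ
  have hBsum : 2 * ∑ k ∈ B, wt t N k = ∑ k ∈ N, wt t N k := (half_sum ht hN j).2
  have hQge : wt t N j ≤ Q := by
    have h1 : ∑ k ∈ B, wt t N k ≤ wt t N i + Q := by
      by_cases hiB : i ∈ B
      · rw [← Finset.add_sum_erase B _ hiB]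
      · rw [hQ, Finset.erase_eq_of_notMem hiB]
        have := wt_pos ht N i
        linarith
    linarith
  have hjpos := wt_pos ht N j
  have hQpos : 0 < Q := by linarith
  set c := wt t N j / Q with hc
  have hc0 : 0 ≤ c := by positivity
  have hc1 : c ≤ 1 := by rw [hc, div_le_one hQpos]; exact hQge
  set f : ι → ℝ := fun k => if k = j then 1 else if k ∈ B.erase i then c else 0 with hf
  have hjB : j ∉ B := by simp [hB]
  have hsum : ∑ k ∈ N, sg N k * wt t N k * f k = 0 := by
    have h1 : ∀ k ∈ N, sg N k * wt t N k * f k = (if k = j then sg N j * wt t N j else 0) +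
        (if k ∈ B.erase i then - (sg N j * c) * wt t N k else 0) := by
      intro k hk
      simp only [hf]
      by_cases hkj : k = j
      · subst hkj
        have : k ∉ B.erase i := fun h => hjB (Finset.mem_of_mem_erase h)
        simp [this]
      · by_cases hkB : k ∈ B.erase i
        · have h2 := sg_ne (Finset.mem_filter.mp (Finset.mem_of_mem_erase hkB)).2
          simp only [hkj, hkB, if_true, if_false]
          rw [h2]; ring
        · simp [hkj, hkB]
    rw [Finset.sum_congr rfl h1, Finset.sum_add_distrib, Finset.sum_ite_eq' N j, if_pos hj,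
      Finset.sum_ite_mem]
    have h3 : N ∩ B.erase i = B.erase i := by
      apply Finset.inter_eq_right.mpr
      exact (Finset.erase_subset _ _).trans (Finset.filter_subset _ _)
    rw [h3, ← Finset.mul_sum, ← hQ, hc]
    field_simp
    ring
  obtain ⟨p, hp, hpe⟩ := exists_poly_of_dep ht hN f hsum
  refine ⟨p, hp, ?_, ?_, ?_⟩
  · rw [hpe i hi]; simp [hf, hij]
  · rw [hpe j hj]; simp [hf]
  · intro k hk
    rw [hpe k hk]
    simp only [hf]
    split_ifs
    · exact ⟨zero_le_one, le_rfl⟩
    · exact ⟨hc0, hc1⟩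
    · exact ⟨le_rfl, zero_le_one⟩

end Pool.Agent.H78.Ill
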