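import Mathlib
import Pool.Agent.H78.Ill.CD

set_option autoImplicit false

open Finset Polynomial
open scoped RealInnerProductSpace

namespace Pool.Agent.H78.Ill

variable {ι : Type} [LinearOrder ι] {t : ι → ℝ} {d : ℕ}

theorem sg_adj {N : Finset (ι)} {i j : ι} (hj : j ∈ N) (hij : i < j)
    (hadj : ∀ k ∈ N, ¬ (i < k ∧ k < j)) : sg N i ≠ sg N j := by
  have h1 : N.filter (fun l => i < l) = insert j (N.filter (fun l => j < l)) := by
    ext l
    simp only [Finset.mem_filter, Finset.mem_insert]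
    constructor
    · rintro ⟨hl, hil⟩
      rcases lt_trichotomy l j with h | h | h
      · exact absurd ⟨hil, h⟩ (hadj l hl)
      · exact Or.inl h
      · exact Or.inr ⟨hl, h⟩
    · rintro (h | ⟨h1, h2⟩)
      · rw [h]; exact ⟨hj, hij⟩
      · exact ⟨h1, hij.trans h2⟩
  have h2 : j ∉ N.filter (fun l => j < l) := by simp
  have h3 : sg N i = - sg N j := by
    unfold sg
    rw [h1, Finset.card_insert_of_notMem h2, pow_succ]
    ring
  rw [h3]
  rcases sg_eq_or N j with h | h <;> rw [h] <;> norm_num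

/-- `v` illuminates the point `q` of `K` -/
def Illuminates (K : Set (EuclideanSpace ℝ (Fin d))) (v q : EuclideanSpace ℝ (Fin d)) : Prop :=
  ∃ s : ℝ, 0 < s ∧ q + s • v ∈ interior K

theorem illum_vertex (ht : StrictMono t) (S : Finset ι) (hn : d + 1 ≤ S.card) (y : ι)
    (v : EuclideanSpace ℝ (Fin d))
    (hv : ∀ (c : ℝ) (f : EuclideanSpace ℝ (Fin d)), (∀ k, 0 ≤ c + ⟪f, moment d (t k)⟫) →
      c + ⟪f, moment d (t y)⟫ = 0 → (∃ k, c + ⟪f, moment d (t k)⟫ ≠ 0) → 0 < ⟪f, v⟫) :
    Illuminates (cyc d t) v (moment d (t y)) :=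
  illum_of_pos (g := fun k => moment d (t k)) (interior_nonempty ht S hn) y v hv

theorem sum_pos_of {c : ℝ} {f : EuclideanSpace ℝ (Fin d)} (ht : StrictMono t) (S : Finset ι)
    (hn : d + 1 ≤ S.card) (h0 : ∀ k, 0 ≤ c + ⟪f, moment d (t k)⟫)
    (hk : ∃ k, c + ⟪f, moment d (t k)⟫ ≠ 0) : 0 < ∑ k ∈ S, (c + ⟪f, moment d (t k)⟫) := by
  obtain ⟨k0, hk0⟩ := hk
  by_contra hcon
  have h1 : ∑ k ∈ S, (c + ⟪f, moment d (t k)⟫) = 0 :=
    le_antisymm (not_lt.mp hcon) (Finset.sum_nonneg fun k _ => h0 k)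
  have h2 := (Finset.sum_eq_zero_iff_of_nonneg fun k _ => h0 k).mp h1
  obtain ⟨h3, h4⟩ := aff_eq_zero ht S hn h2
  apply hk0
  rw [h3, h4]
  simp

/-- every single vertex is illuminated by some direction -/
theorem exists_illum_single (ht : StrictMono t) (S : Finset ι) (hn : d + 1 ≤ S.card) (y : ι) :
    ∃ v, Illuminates (cyc d t) v (moment d (t y)) := by
  refine ⟨∑ k ∈ S, (moment d (t k) - moment d (t y)), illum_vertex ht S hn y _ ?_⟩
  intro c f h0 hy hk
  rw [inner_sum]
  have h1 : ∀ k, ⟪f, moment d (t k) - moment d (t y)⟫ = c + ⟪f, moment d (t k)⟫ := by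
    intro k
    rw [inner_sub_right]; linarith
  simp only [h1]
  exact sum_pos_of ht S hn h0 hk

/-- the vertices between two nodes which are not linked are illuminated by one direction -/
theorem exists_illum_interval (ht : StrictMono t) (S : Finset ι) (hn : d + 1 ≤ S.card) {i j : ι} (hij : i < j)
    (hnl : ¬ Linked d t i j) :
    ∃ v, ∀ y, i ≤ y → y ≤ j → Illuminates (cyc d t) v (moment d (t y)) := by
  classical
  unfold Linked at hnl
  push Not at hnl
  obtain ⟨N, hN, hi, hj, hadj, hw⟩ := hnl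
  have hadj' : ∀ k ∈ N, ¬ (i < k ∧ k < j) := by
    intro k hk ⟨h1, h2⟩
    exact absurd h2 (not_lt.mpr (hadj k hk h1))
  have hsg := sg_adj hj hij hadj'
  set A := (N.filter (fun k => sg N k = sg N j)).erase j with hA
  set h := (1 / 2) * ∑ k ∈ N, wt t N k with hh
  set δ := wt t N i + wt t N j - h with hδ
  have hδpos : 0 < δ := by rw [hδ]; linarith
  have hnpos : (0:ℝ) < (d + 2 : ℕ) := by positivity
  set ε := δ / (2 * ((d + 2 : ℕ) : ℝ)) with hε
  have hεpos : 0 < ε := by positivity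
  set v : EuclideanSpace ℝ (Fin d) := (∑ k ∈ A, wt t N k • (moment d (t k) - moment d (t i))) +
    ε • ∑ k ∈ N, (moment d (t k) - moment d (t i)) with hv
  have hAsum : ∑ k ∈ A, wt t N k = h - wt t N j := by
    have h1 := (half_sum ht hN j).1
    have hjA : j ∈ N.filter (fun k => sg N k = sg N j) := by simp [hj]
    rw [← Finset.add_sum_erase _ _ hjA] at h1
    rw [hh]; linarith
  refine ⟨v, fun y hiy hyj => illum_vertex ht S hn y _ ?_⟩
  intro c f h0 hy hk0
  set P := pol c f with hP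
  have hPe : ∀ k, P.eval (t k) = c + ⟪f, moment d (t k)⟫ := fun k => pol_eval c f (t k)
  have hkey := key_ineq ht hN hi hj hij hadj' hsg hiy hyj P (pol_natDegree c f)
    (fun k => by rw [hPe]; exact h0 k) (by rw [hPe]; exact hy)
  rw [← hA] at hkey
  have hdiff : ∀ k, ⟪f, moment d (t k) - moment d (t i)⟫ = P.eval (t k) - P.eval (t i) := by
    intro k
    rw [inner_sub_right, hPe, hPe]; ring
  have hfv : ⟪f, v⟫ = (∑ k ∈ A, wt t N k * P.eval (t k)) - (h - wt t N j) * P.eval (t i) +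
      ε * ((∑ k ∈ N, P.eval (t k)) - ((d + 2 : ℕ) : ℝ) * P.eval (t i)) := by
    rw [hv, inner_add_right, real_inner_smul_right, inner_sum, inner_sum]
    simp only [real_inner_smul_right, hdiff]
    rw [← hAsum, Finset.sum_mul, ← Finset.sum_sub_distrib, Finset.sum_sub_distrib (s := N)]
    simp only [Finset.sum_const, hN, nsmul_eq_mul]
    congr 1
    refine Finset.sum_congr rfl fun k _ => ?_
    ring
  have hpos : 0 < ∑ k ∈ N, P.eval (t k) := by
    simp only [hPe]
    exact sum_pos_of ht N (by omega) h0 hk0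
  have hPi : 0 ≤ P.eval (t i) := by rw [hPe]; exact h0 i
  rw [hfv]
  have h2 : ε * ((d + 2 : ℕ) : ℝ) = δ / 2 := by rw [hε]; field_simp
  have h3 : ε * ((∑ k ∈ N, P.eval (t k)) - ((d + 2 : ℕ) : ℝ) * P.eval (t i)) =
      ε * (∑ k ∈ N, P.eval (t k)) - (δ / 2) * P.eval (t i) := by rw [← h2]; ring
  rw [h3]
  have h4 : 0 < ε * ∑ k ∈ N, P.eval (t k) := mul_pos hεpos hpos
  have h5 : 0 ≤ δ / 2 * P.eval (t i) := by positivity
  have h6 : δ * P.eval (t i) = wt t N i * P.eval (t i) - (h - wt t N j) * P.eval (t i) := by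
    rw [hδ]; ring
  linarith

theorem ev_moment (a : Fin (d + 1) → ℝ) (x : ℝ) :
    ev a x = a 0 + ⟪(WithLp.toLp 2 (fun k : Fin d => a k.succ) : EuclideanSpace ℝ (Fin d)),
      moment d x⟫ := by
  rw [inner_moment]
  unfold ev
  rw [Fin.sum_univ_succ]
  simp

theorem continuous_ev (x : ℝ) : Continuous fun a : Fin (d + 1) → ℝ => ev a x := by
  unfold ev; fun_prop

/-- evaluation at the nodes of `S` -/
noncomputable def evL (d : ℕ) (t : ι → ℝ) (S : Finset ι) :
    (Fin (d + 1) → ℝ) →ₗ[ℝ] (S → ℝ) where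
  toFun a := fun k => ev a (t k)
  map_add' a b := by
    funext k
    have := ev_add_smul a b 1 1 (t k)
    simpa using this
  map_smul' r a := by
    funext k
    have := ev_add_smul a 0 r 0 (t k)
    simpa using this

theorem evL_ker (ht : StrictMono t) (S : Finset ι) (hn : d + 1 ≤ S.card) :
    LinearMap.ker (evL d t S) = ⊥ := by
  rw [LinearMap.ker_eq_bot']
  intro a ha
  have h1 : ∀ k ∈ S, a 0 + ⟪(WithLp.toLp 2 (fun k : Fin d => a k.succ) : EuclideanSpace ℝ (Fin d)),
      moment d (t k)⟫ = 0 := by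
    intro k hk
    rw [← ev_moment]
    exact congrFun ha ⟨k, hk⟩
  obtain ⟨h2, h3⟩ := aff_eq_zero ht S hn h1
  funext k
  refine Fin.cases h2 (fun l => ?_) k
  have h4 := congrArg (fun w : EuclideanSpace ℝ (Fin d) => w l) h3
  simpa using h4

theorem isCompact_box (ht : StrictMono t) (S : Finset ι) (hn : d + 1 ≤ S.card) :
    IsCompact {a : Fin (d + 1) → ℝ | ∀ k ∈ S, 0 ≤ ev a (t k) ∧ ev a (t k) ≤ 1} := by
  have h1 := LinearMap.isClosedEmbedding_of_injective (evL_ker ht S hn)
  have h2 : IsCompact (Set.pi Set.univ fun _ : S => Set.Icc (0 : ℝ) 1) :=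
    isCompact_univ_pi fun _ => isCompact_Icc
  have h3 := h1.isCompact_preimage h2
  convert h3 using 1
  ext a
  simp only [Set.mem_setOf_eq, Set.mem_preimage, Set.mem_pi, Set.mem_univ, true_implies,
    Set.mem_Icc]
  exact ⟨fun h k => h k k.2, fun h k hk => h ⟨k, hk⟩⟩

/-- linked nodes are separated by a polynomial with values in `[0,1]` at all nodes -/
theorem exists_sep_all (ht : StrictMono t) (S : Finset ι) (hn : d + 1 ≤ S.card) {i j : ι}
    (hij : i < j) (hlink : Linked d t i j) :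
    ∃ a : Fin (d + 1) → ℝ, ev a (t i) = 0 ∧ ev a (t j) = 1 ∧
      ∀ k, 0 ≤ ev a (t k) ∧ ev a (t k) ≤ 1 := by
  classical
  obtain ⟨a, ha1, ha2⟩ := (isCompact_box ht S hn).inter_iInter_nonempty
    (fun k : ι => {a : Fin (d + 1) → ℝ | (0 ≤ ev a (t k) ∧ ev a (t k) ≤ 1) ∧
      ev a (t i) = 0 ∧ ev a (t j) = 1})
    (fun k => by
      refine IsClosed.inter (IsClosed.inter ?_ ?_) (IsClosed.inter ?_ ?_)
      · exact isClosed_le continuous_const (continuous_ev _)
      · exact isClosed_le (continuous_ev _) continuous_const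
      · exact isClosed_eq (continuous_ev _) continuous_const
      · exact isClosed_eq (continuous_ev _) continuous_const)
    (fun u => by
      obtain ⟨a, h1, h2, h3⟩ := exists_sep ht (S ∪ u ∪ {i, j})
        (hn.trans (Finset.card_le_card (by
          intro x hx; simp [hx]))) (i := i) (j := j) (by simp) (by simp) hij hlink
      refine ⟨a, fun k hk => h3 k (by simp [hk]), ?_⟩
      simp only [Set.mem_iInter]
      intro k hk
      exact ⟨h3 k (by simp [hk]), h1, h2⟩)
  simp only [Set.mem_iInter] at ha2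
  exact ⟨a, (ha2 i).2.1, (ha2 i).2.2, fun k => (ha2 k).1⟩

/-- the vertices `i` and `j` lie in parallel supporting hyperplanes -/
def Antipodal (d : ℕ) (t : ι → ℝ) (i j : ι) : Prop :=
  ∃ f : EuclideanSpace ℝ (Fin d), ⟪f, moment d (t i)⟫ < ⟪f, moment d (t j)⟫ ∧
    ∀ k, ⟪f, moment d (t i)⟫ ≤ ⟪f, moment d (t k)⟫ ∧ ⟪f, moment d (t k)⟫ ≤ ⟪f, moment d (t j)⟫

theorem antipodal_of_linked (ht : StrictMono t) (S : Finset ι) (hn : d + 1 ≤ S.card) {i j : ι} (hij : i < j)
    (hl : Linked d t i j) : Antipodal d t i j := by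
  obtain ⟨a, hai, haj, hak⟩ := exists_sep_all ht S hn hij hl
  set f : EuclideanSpace ℝ (Fin d) := WithLp.toLp 2 (fun k : Fin d => a k.succ) with hf
  have hev : ∀ x, ev a x = a 0 + ⟪f, moment d x⟫ := by
    intro x
    rw [inner_moment]
    unfold ev
    rw [Fin.sum_univ_succ]
    simp [hf]
  refine ⟨f, ?_, fun k => ?_⟩
  · rw [hev] at hai haj; linarith
  · have h1 := hak k
    rw [hev] at hai haj h1
    constructor <;> linarith

theorem aff_nonneg_cyc {c : ℝ} {f : EuclideanSpace ℝ (Fin d)}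
    (h : ∀ k, 0 ≤ c + ⟪f, moment d (t k)⟫) : ∀ x ∈ cyc d t, 0 ≤ c + ⟪f, x⟫ :=
  aff_nonneg_hull (g := fun k => moment d (t k)) h

/-- no direction illuminates two antipodal vertices -/
theorem not_illum_antipodal {i j : ι} (h : Antipodal d t i j) (v : EuclideanSpace ℝ (Fin d))
    (hi : Illuminates (cyc d t) v (moment d (t i)))
    (hj : Illuminates (cyc d t) v (moment d (t j))) : False := by
  obtain ⟨f, hlt, hk⟩ := h
  have hf : f ≠ 0 := by
    rintro rfl
    simp at hlt
  obtain ⟨s, hs, hsi⟩ := hi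
  obtain ⟨r, hr, hrj⟩ := hj
  have h1 := aff_pos_interior hf (aff_nonneg_cyc (t := t) (c := -⟪f, moment d (t i)⟫) (f := f)
    (fun k => by have := (hk k).1; linarith)) hsi
  have h2 := aff_pos_interior (f := -f) (neg_ne_zero.mpr hf) (aff_nonneg_cyc (t := t)
    (c := ⟪f, moment d (t j)⟫) (f := -f)
    (fun k => by rw [inner_neg_left]; have := (hk k).2; linarith)) hrj
  rw [inner_add_right, real_inner_smul_right] at h1
  rw [inner_neg_left, inner_add_right, real_inner_smul_right] at h2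
  have h3 : 0 < s * ⟪f, v⟫ := by linarith
  have h4 : r * ⟪f, v⟫ < 0 := by linarith
  have h5 : 0 < ⟪f, v⟫ := (mul_pos_iff_of_pos_left hs).mp h3
  have := mul_pos hr h5
  linarith

/-- monotonicity of linkedness -/
theorem linked_mono (ht : StrictMono t) (S : Finset ι) (hn : d + 1 ≤ S.card) {i j i' j' : ι} (hii : i' ≤ i)
    (hij : i < j) (hjj : j ≤ j') (hl : Linked d t i j) : Linked d t i' j' := by
  by_contra hnl
  obtain ⟨v, hv⟩ := exists_illum_interval ht S hn (lt_of_le_of_lt hii (lt_of_lt_of_le hij hjj)) hnl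
  exact not_illum_antipodal (antipodal_of_linked ht S hn hij hl) v
    (hv i hii (hij.le.trans hjj)) (hv j (hii.trans hij.le) hjj)

/-- the vertices are boundary points -/
theorem vertex_frontier (_ht : StrictMono t) (hd : 2 ≤ d) (i : ι) :
    moment d (t i) ∈ frontier (cyc d t) := by
  have hmem : moment d (t i) ∈ cyc d t := subset_convexHull ℝ _ ⟨i, rfl⟩
  refine ⟨subset_closure hmem, ?_⟩
  intro hint
  -- the functional (x - t i)^2
  set a : ℝ[X] := (X - C (t i)) ^ 2 with ha
  set f : EuclideanSpace ℝ (Fin d) := WithLp.toLp 2 (fun k : Fin d => a.coeff ((k : ℕ) + 1)) with hf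
  have hnat : a.natDegree = 2 := by rw [ha, Polynomial.natDegree_pow, Polynomial.natDegree_X_sub_C]
  have hev : ∀ x, a.eval x = a.coeff 0 + ⟪f, moment d x⟫ := by
    intro x
    rw [inner_moment, Polynomial.eval_eq_sum_range' (show a.natDegree < d + 1 by omega),
      Finset.sum_range_succ', Finset.sum_range]
    simp [hf, add_comm]
  have hsq : ∀ x, a.eval x = (x - t i) ^ 2 := by intro x; simp [ha]
  have hf0 : f ≠ 0 := by
    intro h0
    have h1 := hev (t i)
    have h2 := hev (t i + 1)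
    rw [hsq, h0, inner_zero_left] at h1 h2
    norm_num at h1 h2
    linarith
  have h1 := aff_pos_interior hf0 (aff_nonneg_cyc (t := t) (c := a.coeff 0) (f := f)
    (fun k => by rw [← hev, hsq]; positivity)) hint
  rw [← hev, hsq] at h1
  norm_num at h1

end Pool.Agent.H78.Ill
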