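import Mathlib

/-! The convex hull of a compact set in a finite-dimensional space is compact. -/

set_option autoImplicit false

namespace Pool.Agent.H78.Ill

theorem hull_compact {E : Type} [NormedAddCommGroup E] [NormedSpace ℝ E] [FiniteDimensional ℝ E]
    {s : Set E} (hs : IsCompact s) : IsCompact (convexHull ℝ s) := by
  classical
  rcases s.eq_empty_or_nonempty with rfl | ⟨s0, hs0⟩
  · simp
  set n := Module.finrank ℝ E + 1 with hn
  set Φ : (Fin n → ℝ) × (Fin n → E) → E := fun p => ∑ i, p.1 i • p.2 i with hΦ
  have hΦc : Continuous Φ := by
    rw [hΦ]; fun_prop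
  have hA : IsCompact ((stdSimplex ℝ (Fin n)) ×ˢ (Set.pi Set.univ fun _ : Fin n => s)) :=
    (isCompact_stdSimplex ℝ (Fin n)).prod (isCompact_univ_pi fun _ => hs)
  have hEq : convexHull ℝ s = Φ '' ((stdSimplex ℝ (Fin n)) ×ˢ (Set.pi Set.univ fun _ : Fin n => s)) := by
    apply Set.Subset.antisymm
    · intro x hx
      obtain ⟨κ, hκ, z, w, hz, haff, hw0, hw1, hsum⟩ := eq_pos_convex_span_of_mem_convexHull hx
      have hcard : Fintype.card κ ≤ n := by
        have := haff.card_le_finrank_succ
        refine this.trans ?_
        rw [hn]
        have := Submodule.finrank_le (vectorSpan ℝ (Set.range z))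
        omega
      obtain ⟨e⟩ : Nonempty (κ ↪ Fin n) :=
        Function.Embedding.nonempty_of_card_le (by rw [Fintype.card_fin]; exact hcard)
      refine ⟨(Function.extend e w 0, Function.extend e z fun _ => s0), ⟨⟨?_, ?_⟩, ?_⟩, ?_⟩
      · intro k
        by_cases hk : ∃ i, e i = k
        · obtain ⟨i, rfl⟩ := hk
          simp only
          rw [e.injective.extend_apply]
          exact (hw0 i).le
        · simp only
          rw [Function.extend_apply' _ _ _ hk]
          exact le_rfl
      · rw [← hw1]
        symm
        refine Fintype.sum_of_injective e e.injective _ _ ?_ ?_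
        · intro k hk
          have hk' : ¬ ∃ i, e i = k := hk
          simp only
          rw [Function.extend_apply' _ _ _ hk']
          rfl
        · intro i
          simp only
          rw [e.injective.extend_apply]
      · intro k _
        by_cases hk : ∃ i, e i = k
        · obtain ⟨i, rfl⟩ := hk
          simp only
          rw [e.injective.extend_apply]
          exact hz ⟨i, rfl⟩
        · simp only
          rw [Function.extend_apply' _ _ _ hk]
          exact hs0
      · rw [← hsum]
        symm
        refine Fintype.sum_of_injective e e.injective _ _ ?_ ?_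
        · intro k hk
          have hk' : ¬ ∃ i, e i = k := hk
          simp only
          rw [Function.extend_apply' _ _ _ hk']
          simp
        · intro i
          simp only
          rw [e.injective.extend_apply, e.injective.extend_apply]
    · rintro _ ⟨⟨w, z⟩, ⟨⟨hw0, hw1⟩, hz⟩, rfl⟩
      exact (convex_convexHull ℝ s).sum_mem (fun i _ => hw0 i) hw1
        (fun i _ => subset_convexHull ℝ s (hz i (Set.mem_univ i)))
  rw [hEq]
  exact hA.image hΦc

end Pool.Agent.H78.Ill
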