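import Mathlib
import Pool.Agent.H78.Ill.CE
import Pool.Agent.H78.Ill.Hull
import Pool.Graph.R_seed8.Helper481.CycG

/-! Covering a compact set of parameters by sets illuminated by one direction. -/

set_option autoImplicit false
set_option linter.unusedSectionVars false

open Finset Polynomial
open scoped RealInnerProductSpace

namespace Pool.Agent.H78.Ill

variable {T : Set ℝ} {d : ℕ}

/-- the inclusion -/
abbrev vl (T : Set ℝ) : T → ℝ := Subtype.val

theorem vl_mono (T : Set ℝ) : StrictMono (vl T) := fun _ _ h => h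

/-- separated by a polynomial with values in `[0,1]` -/
def Ap (d : ℕ) (T : Set ℝ) (i j : T) : Prop :=
  ∃ a : Fin (d + 1) → ℝ, ev a i = 0 ∧ ev a j = 1 ∧ ∀ k : T, 0 ≤ ev a k ∧ ev a k ≤ 1

theorem antipodal_of_ap {i j : T} (h : Ap d T i j) : Antipodal d (vl T) i j := by
  obtain ⟨a, hai, haj, hak⟩ := h
  refine ⟨WithLp.toLp 2 (fun k : Fin d => a k.succ), ?_, fun k => ?_⟩
  · have h1 := ev_moment a (i : ℝ)
    have h2 := ev_moment a (j : ℝ)
    rw [hai] at h1
    rw [haj] at h2
    change ⟪_, moment d (i : ℝ)⟫ < ⟪_, moment d (j : ℝ)⟫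
    linarith
  · have h1 := ev_moment a (i : ℝ)
    have h2 := ev_moment a (j : ℝ)
    have h3 := ev_moment a (k : ℝ)
    have h4 := hak k
    rw [hai] at h1
    rw [haj] at h2
    change ⟪_, moment d (i : ℝ)⟫ ≤ ⟪_, moment d (k : ℝ)⟫ ∧
      ⟪_, moment d (k : ℝ)⟫ ≤ ⟪_, moment d (j : ℝ)⟫
    constructor <;> linarith

theorem linked_of_antipodal (S : Finset T) (hn : d + 1 ≤ S.card) {i j : T} (hij : i < j)
    (h : Antipodal d (vl T) i j) : Linked d (vl T) i j := by
  by_contra hcon
  obtain ⟨v, hv⟩ := exists_illum_interval (vl_mono T) S hn hij hcon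
  exact not_illum_antipodal h v (hv i le_rfl hij.le) (hv j hij.le le_rfl)

theorem ap_iff (S : Finset T) (hn : d + 1 ≤ S.card) {i j : T} (hij : i < j) :
    Ap d T i j ↔ Linked d (vl T) i j :=
  ⟨fun h => linked_of_antipodal S hn hij (antipodal_of_ap h),
    fun h => exists_sep_all (vl_mono T) S hn hij h⟩

theorem continuous_ev2 : Continuous fun p : (Fin (d + 1) → ℝ) × ℝ => ev p.1 p.2 := by
  unfold ev; fun_prop

section compact

variable [CompactSpace T]

/-- the relation, as a closed set -/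
def Rel (d : ℕ) (T : Set ℝ) : Set (T × T) := {q | q.1 ≤ q.2 ∧ Ap d T q.1 q.2}

theorem rel_compact (S : Finset T) (hn : d + 1 ≤ S.card) : IsCompact (Rel d T) := by
  set B : Set (Fin (d + 1) → ℝ) := {a | ∀ k ∈ S, 0 ≤ ev a (vl T k) ∧ ev a (vl T k) ≤ 1} with hB
  have hBc : IsCompact B := isCompact_box (vl_mono T) S hn
  set C : Set ((T × T) × (Fin (d + 1) → ℝ)) := {p | p.1.1 ≤ p.1.2 ∧ ev p.2 p.1.1 = 0 ∧
    ev p.2 p.1.2 = 1 ∧ ∀ k : T, 0 ≤ ev p.2 k ∧ ev p.2 k ≤ 1} with hC
  have h1 : Continuous fun p : (T × T) × (Fin (d + 1) → ℝ) => ev p.2 (p.1.1 : ℝ) :=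
    continuous_ev2.comp (continuous_snd.prodMk
      (continuous_subtype_val.comp (continuous_fst.comp continuous_fst)))
  have h2 : Continuous fun p : (T × T) × (Fin (d + 1) → ℝ) => ev p.2 (p.1.2 : ℝ) :=
    continuous_ev2.comp (continuous_snd.prodMk
      (continuous_subtype_val.comp (continuous_snd.comp continuous_fst)))
  have h3 : ∀ k : T, Continuous fun p : (T × T) × (Fin (d + 1) → ℝ) => ev p.2 (k : ℝ) :=
    fun k => (continuous_ev _).comp continuous_snd
  have hCc : IsClosed C := by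
    have e : C = {p | (p.1.1 : ℝ) ≤ (p.1.2 : ℝ)} ∩ ({p | ev p.2 (p.1.1 : ℝ) = 0} ∩
        ({p | ev p.2 (p.1.2 : ℝ) = 1} ∩ ⋂ k : T, ({p | 0 ≤ ev p.2 (k : ℝ)} ∩
          {p | ev p.2 (k : ℝ) ≤ 1}))) := by
      ext p
      simp only [hC, Set.mem_inter_iff, Set.mem_iInter]
      exact Iff.rfl
    rw [e]
    refine IsClosed.inter (isClosed_le ?_ ?_) (IsClosed.inter (isClosed_eq h1 continuous_const)
      (IsClosed.inter (isClosed_eq h2 continuous_const) (isClosed_iInter fun k =>
        IsClosed.inter (isClosed_le continuous_const (h3 k)) (isClosed_le (h3 k) continuous_const))))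
    · exact continuous_subtype_val.comp (continuous_fst.comp continuous_fst)
    · exact continuous_subtype_val.comp (continuous_snd.comp continuous_fst)
  have hK : IsCompact ((Set.univ ×ˢ B) ∩ C) := (isCompact_univ.prod hBc).inter_right hCc
  have e : Rel d T = Prod.fst '' ((Set.univ ×ˢ B) ∩ C) := by
    ext q
    constructor
    · rintro ⟨hq, a, ha⟩
      exact ⟨(q, a), ⟨⟨trivial, fun k _ => ha.2.2 k⟩, hq, ha⟩, rfl⟩
    · rintro ⟨⟨q', a⟩, ⟨_, hq, ha⟩, rfl⟩
      exact ⟨hq, a, ha⟩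
  rw [e]
  exact hK.image continuous_fst

/-- starting points of chains with `j` links -/
def Dj (d : ℕ) (T : Set ℝ) : ℕ → Set T
  | 0 => Set.univ
  | j + 1 => {x | ∃ y ∈ Dj d T j, x < y ∧ Ap d T x y}

theorem ap_ne {x : T} (h : Ap d T x x) : False := by
  obtain ⟨a, h1, h2, _⟩ := h
  rw [h1] at h2
  exact zero_ne_one h2

theorem dj_closed (S : Finset T) (hn : d + 1 ≤ S.card) : ∀ j, IsClosed (Dj d T j)
  | 0 => isClosed_univ
  | j + 1 => by
    have ih := dj_closed S hn j
    have h1 : IsCompact (Rel d T ∩ {q | q.2 ∈ Dj d T j}) :=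
      (rel_compact S hn).inter_right (ih.preimage continuous_snd)
    have e : Dj d T (j + 1) = Prod.fst '' (Rel d T ∩ {q | q.2 ∈ Dj d T j}) := by
      ext x
      constructor
      · rintro ⟨y, hy, hxy, h⟩
        exact ⟨(x, y), ⟨⟨hxy.le, h⟩, hy⟩, rfl⟩
      · rintro ⟨⟨x', y⟩, ⟨⟨hxy, h⟩, hy⟩, rfl⟩
        refine ⟨y, hy, lt_of_le_of_ne hxy ?_, h⟩
        intro hne
        simp only at hne h
        rw [hne] at h
        exact ap_ne h
    rw [e]
    exact (h1.image continuous_fst).isClosed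

theorem illum_upto (S : Finset T) (hn : d + 1 ≤ S.card) {a b : T} (hab : a ≤ b)
    (h : a < b → ¬ Ap d T a b) :
    ∃ v, ∀ y, a ≤ y → y ≤ b → Illuminates (cyc d (vl T)) v (moment d y) := by
  rcases hab.lt_or_eq with hlt | rfl
  · exact exists_illum_interval (vl_mono T) S hn hlt (fun h' => h hlt ((ap_iff S hn hlt).mpr h'))
  · obtain ⟨v, hv⟩ := exists_illum_single (vl_mono T) S hn a
    refine ⟨v, fun y h1 h2 => ?_⟩
    have := le_antisymm h1 h2
    subst this
    exact hv

theorem cover (S : Finset T) (hn : d + 1 ≤ S.card) : ∀ (j : ℕ) (p : T), p ∉ Dj d T j →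
    ∃ W : Finset (EuclideanSpace ℝ (Fin d)), W.card ≤ j ∧
      ∀ z, p ≤ z → ∃ w ∈ W, Illuminates (cyc d (vl T)) w (moment d z) := by
  classical
  intro j
  induction j with
  | zero => intro p hp; exact absurd (Set.mem_univ p) hp
  | succ j ih =>
    intro p hp
    by_cases hex : ∃ y, p ≤ y ∧ Ap d T p y
    · set B : Set T := {y | (p, y) ∈ Rel d T} with hB
      have hBc : IsCompact B :=
        ((rel_compact S hn).isClosed.preimage (by fun_prop : Continuous fun y : T => (p, y))).isCompact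
      obtain ⟨a2, ha2, hmin⟩ := hBc.exists_isLeast hex
      have hpa : p < a2 := by
        refine lt_of_le_of_ne ha2.1 ?_
        rintro rfl
        exact ap_ne ha2.2
      have ha2D : a2 ∉ Dj d T j := fun h => hp ⟨a2, h, hpa, ha2.2⟩
      have hno : ∀ q, p ≤ q → q < a2 → ¬ Ap d T p q := fun q h1 h2 h3 =>
        absurd (hmin (show q ∈ B from ⟨h1, h3⟩)) (not_le.mpr h2)
      by_cases hq : ∃ q, p ≤ q ∧ q < a2 ∧ q ∉ Dj d T j
      · obtain ⟨q, h1, h2, h3⟩ := hq
        obtain ⟨W, hW, hWc⟩ := ih q h3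
        obtain ⟨v, hv⟩ := illum_upto S hn h1 (fun _ => hno q h1 h2)
        refine ⟨insert v W, (Finset.card_insert_le _ _).trans (by omega), ?_⟩
        intro z hz
        rcases le_total q z with h | h
        · obtain ⟨w, hw, hw2⟩ := hWc z h
          exact ⟨w, Finset.mem_insert_of_mem hw, hw2⟩
        · exact ⟨v, Finset.mem_insert_self _ _, hv z hz h⟩
      · push Not at hq
        set C : Set T := {q | p ≤ q ∧ q ≤ a2 ∧ q ∈ Dj d T j} with hC
        have hCc : IsCompact C := by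
          have h1 : IsClosed C :=
            (isClosed_Ici (a := p)).inter ((isClosed_Iic (a := a2)).inter (dj_closed S hn j))
          exact h1.isCompact
        have hpC : p ∈ C := ⟨le_rfl, hpa.le, hq p le_rfl hpa⟩
        obtain ⟨q0, hq0, hmax⟩ := hCc.exists_isGreatest ⟨p, hpC⟩
        have hq0a : q0 < a2 := by
          refine lt_of_le_of_ne hq0.2.1 ?_
          rintro rfl
          exact ha2D hq0.2.2
        obtain ⟨W, hW, hWc⟩ := ih a2 ha2D
        obtain ⟨v, hv⟩ := illum_upto S hn hq0.1 (fun _ => hno q0 hq0.1 hq0a)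
        refine ⟨insert v W, (Finset.card_insert_le _ _).trans (by omega), ?_⟩
        intro z hz
        rcases le_or_gt a2 z with h | h
        · obtain ⟨w, hw, hw2⟩ := hWc z h
          exact ⟨w, Finset.mem_insert_of_mem hw, hw2⟩
        · exact ⟨v, Finset.mem_insert_self _ _, hv z hz (hmax ⟨hz, h.le, hq z hz h⟩)⟩
    · push Not at hex
      obtain ⟨M, _, hM⟩ := (isCompact_univ (X := T)).exists_isGreatest ⟨p, trivial⟩
      obtain ⟨v, hv⟩ := illum_upto S hn (hM (Set.mem_univ p))
        (fun h => hex M h.le)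
      refine ⟨{v}, by simp, fun z hz => ⟨v, Finset.mem_singleton_self v, hv z hz (hM trivial)⟩⟩

end compact

end Pool.Agent.H78.Ill
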