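import Mathlib
import Pool.Agent.H78.Ill.CF

/-! The illumination number of the convex hull of a compact part of the moment curve. -/

set_option autoImplicit false
set_option linter.unusedSectionVars false

open Finset Polynomial
open scoped RealInnerProductSpace

namespace Pool.Agent.H78.Ill

variable {T : Set ℝ} {d : ℕ}

/-- linked, in increasing order -/
def LinkRel (d : ℕ) (T : Set ℝ) (i j : T) : Prop := i < j ∧ Linked d (vl T) i j

/-- illuminating set of unit vectors -/
def IsIllum (K : Set (EuclideanSpace ℝ (Fin d))) (V : Finset (EuclideanSpace ℝ (Fin d))) : Prop :=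
  (∀ v ∈ V, ‖v‖ = 1) ∧ ∀ q ∈ frontier K, ∃ v ∈ V, Illuminates K v q

theorem card_ge_of_antipodal {V : Finset (EuclideanSpace ℝ (Fin d))}
    (hV : ∀ y : T, ∃ v ∈ V, Illuminates (cyc d (vl T)) v (moment d y))
    (S : Finset T) (hS : ∀ i ∈ S, ∀ j ∈ S, i < j → Antipodal d (vl T) i j) :
    S.card ≤ V.card := by
  classical
  choose φ hφ hφ2 using hV
  refine Finset.card_le_card_of_injOn φ (fun i _ => hφ i) ?_
  intro i hi j hj hij
  rcases lt_trichotomy i j with h | h | h
  · exfalso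
    have h1 := hφ2 j
    rw [← hij] at h1
    exact not_illum_antipodal (hS i hi j hj h) _ (hφ2 i) h1
  · exact h
  · exfalso
    have h1 := hφ2 j
    rw [← hij] at h1
    exact not_illum_antipodal (hS j hj i hi h) _ h1 (hφ2 i)

theorem linkRel_trans (S : Finset T) (hn : d + 1 ≤ S.card) {i j k : T}
    (h1 : LinkRel d T i j) (h2 : LinkRel d T j k) : LinkRel d T i k :=
  ⟨h1.1.trans h2.1, linked_mono (vl_mono T) S hn le_rfl h1.1 h2.1.le h1.2⟩

theorem chain_antipodal (S : Finset T) (hn : d + 1 ≤ S.card) {l : List T}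
    (hl : List.IsChain (LinkRel d T) l) :
    l.Nodup ∧ ∀ i ∈ l.toFinset, ∀ j ∈ l.toFinset, i < j → Antipodal d (vl T) i j := by
  classical
  have : IsTrans T (LinkRel d T) := ⟨fun _ _ _ h1 h2 => linkRel_trans S hn h1 h2⟩
  have hp : l.Pairwise (LinkRel d T) := List.isChain_iff_pairwise.mp hl
  have hlt : l.Pairwise (· < ·) := hp.imp (fun h => h.1)
  refine ⟨hlt.imp (fun h => ne_of_lt h), ?_⟩
  intro i hi j hj hij
  rw [List.mem_toFinset] at hi hj
  have key : ∀ i ∈ l, ∀ j ∈ l, i < j → LinkRel d T i j := by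
    have := List.pairwise_iff_getElem.mp hp
    have hlt' := List.pairwise_iff_getElem.mp hlt
    intro i hi j hj hij
    obtain ⟨a, ha, rfl⟩ := List.mem_iff_getElem.mp hi
    obtain ⟨b, hb, rfl⟩ := List.mem_iff_getElem.mp hj
    rcases lt_trichotomy a b with h | h | h
    · exact this a b ha hb h
    · subst h; exact absurd hij (lt_irrefl _)
    · exact absurd (hlt' b a hb ha h) (not_lt.mpr hij.le)
  have h := key i hi j hj hij
  exact antipodal_of_linked (vl_mono T) S hn h.1 h.2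

/-- at most `2 d - 1` pairwise antipodal points -/
theorem card_antipodal_le (hd : 2 ≤ d) (S : Finset T)
    (hS : ∀ i ∈ S, ∀ j ∈ S, i < j → Antipodal d (vl T) i j) : S.card ≤ 2 * d - 1 := by
  set e := S.orderEmbOfFin rfl with he
  set t' : Fin S.card → ℝ := fun i => (e i : ℝ) with ht'
  have hmono : StrictMono t' := fun i j h => e.strictMono h
  have h1 := Cyc481.card_antipodal_le (t := t') hmono hd Finset.univ (by
    intro i _ j _ hij
    obtain ⟨f, hf1, hf2⟩ := hS (e i) (S.orderEmbOfFin_mem rfl i) (e j)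
      (S.orderEmbOfFin_mem rfl j) (e.strictMono hij)
    exact ⟨f, hf1, fun k => hf2 (e k)⟩)
  rwa [Finset.card_univ, Fintype.card_fin] at h1

theorem chain_of_dj (S : Finset T) (hn : d + 1 ≤ S.card) : ∀ (j : ℕ) (p : T), p ∈ Dj d T j →
    ∃ l : List T, l.length = j ∧ List.IsChain (LinkRel d T) (p :: l)
  | 0, p, _ => ⟨[], rfl, List.isChain_singleton _⟩
  | j + 1, p, h => by
    obtain ⟨y, hy, hpy, hap⟩ := h
    obtain ⟨l, hl, hc⟩ := chain_of_dj S hn j y hy
    exact ⟨y :: l, by simp [hl],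
      List.isChain_cons_cons.mpr ⟨⟨hpy, (ap_iff S hn hpy).mp hap⟩, hc⟩⟩

section compact

variable [CompactSpace T]

theorem cyc_closed : IsClosed (cyc d (vl T)) := by
  unfold cyc
  refine (hull_compact (isCompact_range ?_)).isClosed
  unfold moment
  refine (PiLp.continuous_toLp 2 _).comp (continuous_pi fun k => ?_)
  exact continuous_subtype_val.pow _

theorem exists_unit (hd : 2 ≤ d) {V : Finset (EuclideanSpace ℝ (Fin d))}
    (hV : ∀ y : T, ∃ v ∈ V, Illuminates (cyc d (vl T)) v (moment d y)) :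
    ∃ V' : Finset (EuclideanSpace ℝ (Fin d)), V'.card ≤ V.card ∧ IsIllum (cyc d (vl T)) V' := by
  classical
  have : Nonempty (Fin d) := ⟨⟨0, by omega⟩⟩
  have : Nontrivial (EuclideanSpace ℝ (Fin d)) := inferInstance
  obtain ⟨e, he⟩ := exists_norm_eq (EuclideanSpace ℝ (Fin d)) (show (0:ℝ) ≤ 1 by norm_num)
  set φ : EuclideanSpace ℝ (Fin d) → EuclideanSpace ℝ (Fin d) :=
    fun v => if v = 0 then e else (‖v‖⁻¹ : ℝ) • v with hφ
  refine ⟨V.image φ, Finset.card_image_le, ?_, ?_⟩
  · intro w hw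
    obtain ⟨v, _, rfl⟩ := Finset.mem_image.mp hw
    simp only [hφ]
    split_ifs with h
    · exact he
    · rw [norm_smul, norm_inv, norm_norm]
      exact inv_mul_cancel₀ (norm_ne_zero_iff.mpr h)
  · intro q hq
    have hqK : q ∈ cyc d (vl T) := by
      have := hq.1
      rwa [cyc_closed.closure_eq] at this
    obtain ⟨v, hv, s, hs, hqs⟩ := illum_all (g := fun k : T => moment d (vl T k)) (V := (V : Set _))
      (fun k => by obtain ⟨v, hv, h⟩ := hV k; exact ⟨v, hv, h⟩) q hqK
    have hv0 : v ≠ 0 := by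
      rintro rfl
      rw [smul_zero, add_zero] at hqs
      exact hq.2 hqs
    refine ⟨φ v, Finset.mem_image_of_mem φ hv, s * ‖v‖, ?_, ?_⟩
    · have := norm_pos_iff.mpr hv0
      positivity
    · simp only [hφ, hv0, if_false]
      rw [smul_smul, mul_assoc, mul_inv_cancel₀ (norm_ne_zero_iff.mpr hv0), mul_one]
      exact hqs

/-- at least `d + 1` directions are needed -/
theorem card_ge (hd : 2 ≤ d) (S : Finset T) (hn : d + 1 ≤ S.card)
    {V : Finset (EuclideanSpace ℝ (Fin d))} (hV : IsIllum (cyc d (vl T)) V) : d + 1 ≤ V.card := by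
  classical
  by_contra hcon
  push Not at hcon
  obtain ⟨s0, hs0⟩ : S.Nonempty := by
    rw [← Finset.card_pos]; omega
  have ht := vl_mono T
  obtain ⟨v0, hv0, _⟩ := hV.2 _ (vertex_frontier ht hd s0)
  set W := V.erase v0 with hW
  have hWc : W.card < d := by
    have := Finset.card_erase_of_mem hv0
    rw [← hW] at this
    omega
  have hlt : Submodule.span ℝ (W : Set (EuclideanSpace ℝ (Fin d))) < ⊤ := by
    apply Submodule.lt_top_of_finrank_lt_finrank
    rw [finrank_euclideanSpace, Fintype.card_fin]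
    exact lt_of_le_of_lt (finrank_span_finset_le_card W) hWc
  obtain ⟨F, hF0, hF⟩ := Submodule.exists_le_ker_of_lt_top _ hlt
  set F' : EuclideanSpace ℝ (Fin d) →L[ℝ] ℝ := LinearMap.toContinuousLinearMap F with hF'
  set f0 := (InnerProductSpace.toDual ℝ (EuclideanSpace ℝ (Fin d))).symm F' with hf0
  have hfx0 : ∀ x, ⟪f0, x⟫ = F x := by
    intro x
    rw [hf0, InnerProductSpace.toDual_symm_apply]
    rfl
  have hf0ne : f0 ≠ 0 := by
    intro h
    apply hF0
    ext1 x
    rw [← hfx0, h]; simp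
  have hex : ∃ f : EuclideanSpace ℝ (Fin d), f ≠ 0 ∧ ∀ v ∈ V, 0 ≤ ⟪f, v⟫ := by
    have hW0 : ∀ v ∈ W, ⟪f0, v⟫ = 0 := by
      intro v hv
      rw [hfx0]
      exact hF (Submodule.subset_span hv)
    rcases le_total 0 ⟪f0, v0⟫ with h | h
    · refine ⟨f0, hf0ne, fun v hv => ?_⟩
      by_cases hvv : v = v0
      · rw [hvv]; exact h
      · rw [hW0 v (Finset.mem_erase.mpr ⟨hvv, hv⟩)]
    · refine ⟨-f0, neg_ne_zero.mpr hf0ne, fun v hv => ?_⟩
      rw [inner_neg_left]
      by_cases hvv : v = v0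
      · rw [hvv]; linarith
      · rw [hW0 v (Finset.mem_erase.mpr ⟨hvv, hv⟩)]; simp
  obtain ⟨f, hf, hfV⟩ := hex
  have hcont : Continuous fun i : T => ⟪f, moment d (vl T i)⟫ := by
    simp only [inner_moment]
    refine continuous_finset_sum _ fun k _ => continuous_const.mul ?_
    exact continuous_subtype_val.pow _
  obtain ⟨i, _, hi⟩ := (isCompact_univ (X := T)).exists_isMaxOn ⟨s0, trivial⟩ hcont.continuousOn
  have hi' : ∀ k : T, ⟪f, moment d (vl T k)⟫ ≤ ⟪f, moment d (vl T i)⟫ := fun k => hi trivial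
  obtain ⟨v, hv, s, hs, hint⟩ := hV.2 _ (vertex_frontier ht hd i)
  have h1 := aff_pos_interior (f := -f) (neg_ne_zero.mpr hf) (aff_nonneg_cyc (t := vl T)
    (c := ⟪f, moment d (vl T i)⟫) (f := -f)
    (fun k => by rw [inner_neg_left]; have := hi' k; linarith)) hint
  rw [inner_neg_left, inner_add_right, real_inner_smul_right] at h1
  have h2 := mul_nonneg hs.le (hfV v hv)
  linarith

/-- **Main theorem.** -/
theorem main (hd : 2 ≤ d) (S : Finset T) (hn : d + 1 ≤ S.card) : ∃ m : ℕ,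
    IsLeast {k | ∃ V : Finset (EuclideanSpace ℝ (Fin d)), V.card = k ∧
      IsIllum (cyc d (vl T)) V} m ∧
    IsGreatest {k | ∃ l : List T, l.length = k ∧ List.IsChain (LinkRel d T) l} m ∧
    IsGreatest {k | ∃ S : Finset T, S.card = k ∧
      ∀ i ∈ S, ∀ j ∈ S, i < j → Antipodal d (vl T) i j} m ∧
    d + 1 ≤ m ∧ m ≤ 2 * d - 1 := by
  classical
  obtain ⟨s0, hs0⟩ : S.Nonempty := by
    rw [← Finset.card_pos]; omega
  obtain ⟨p0, _, hp0⟩ := (isCompact_univ (X := T)).exists_isLeast ⟨s0, trivial⟩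
  have hlen : ∀ l : List T, List.IsChain (LinkRel d T) l → l.length ≤ 2 * d - 1 := by
    intro l hl
    obtain ⟨hnd, hanti⟩ := chain_antipodal S hn hl
    have := card_antipodal_le hd l.toFinset hanti
    rwa [List.toFinset_card_of_nodup hnd] at this
  have hex : ∃ j, p0 ∉ Dj d T j := by
    refine ⟨2 * d - 1, fun h => ?_⟩
    obtain ⟨l, hl, hc⟩ := chain_of_dj S hn _ _ h
    have := hlen _ hc
    rw [List.length_cons, hl] at this
    omega
  set m := Nat.find hex with hm
  have hm1 : p0 ∉ Dj d T m := Nat.find_spec hex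
  have hm0 : m ≠ 0 := by
    intro h
    rw [h] at hm1
    exact hm1 (Set.mem_univ _)
  have hm2 : p0 ∈ Dj d T (m - 1) := by
    by_contra h
    exact Nat.find_min hex (show m - 1 < Nat.find hex by omega) h
  obtain ⟨l, hl, hc⟩ := chain_of_dj S hn _ _ hm2
  obtain ⟨V, hVc, hcov⟩ := cover S hn m p0 hm1
  obtain ⟨V', hV'c, hV'⟩ := exists_unit hd (V := V) (fun y => hcov y (hp0 trivial))
  obtain ⟨hnd, hanti⟩ := chain_antipodal S hn hc
  have hcard : (p0 :: l).toFinset.card = m := by
    rw [List.toFinset_card_of_nodup hnd, List.length_cons, hl]; omega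
  have hge : ∀ V0 : Finset (EuclideanSpace ℝ (Fin d)), IsIllum (cyc d (vl T)) V0 →
      ∀ S : Finset T, (∀ i ∈ S, ∀ j ∈ S, i < j → Antipodal d (vl T) i j) → S.card ≤ V0.card :=
    fun V0 hV0 S hS => card_ge_of_antipodal
      (fun y => hV0.2 _ (vertex_frontier (vl_mono T) hd y)) S hS
  have hV'm : V'.card = m := by
    have := hge V' hV' _ hanti
    omega
  refine ⟨m, ⟨⟨V', hV'm, hV'⟩, ?_⟩, ⟨⟨p0 :: l, by rw [List.length_cons, hl]; omega, hc⟩, ?_⟩,
    ⟨⟨(p0 :: l).toFinset, hcard, hanti⟩, ?_⟩, ?_, ?_⟩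
  · rintro k ⟨V0, rfl, hV0⟩
    have := hge V0 hV0 _ hanti
    omega
  · rintro k ⟨l', rfl, hl'⟩
    obtain ⟨hnd', hanti'⟩ := chain_antipodal S hn hl'
    have := hge V' hV' _ hanti'
    rw [List.toFinset_card_of_nodup hnd'] at this
    omega
  · rintro k ⟨S', rfl, hS'⟩
    have := hge V' hV' _ hS'
    omega
  · rw [← hV'm]
    exact card_ge hd S hn hV'
  · rw [← hcard]
    exact card_antipodal_le hd _ hanti

end compact

end Pool.Agent.H78.Ill
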