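import Mathlib
import Pool.Agent.H78.Ill.CG

/-! Arcs of the moment curve: chains have at most `d + 1` members. -/

set_option autoImplicit false
set_option linter.unusedSectionVars false

open Finset Polynomial

namespace Pool.Agent.H78.Ill

/-- extremal points of the Chebyshev polynomial -/
noncomputable def uu (d k : ℕ) : ℝ := Real.cos (k * Real.pi / d)

theorem uu_zero (d : ℕ) : uu d 0 = 1 := by simp [uu]

theorem uu_last {d : ℕ} (hd : 1 ≤ d) : uu d d = -1 := by
  unfold uu
  have : (d : ℝ) ≠ 0 := by positivity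
  rw [mul_div_assoc, mul_div_cancel₀ _ this, Real.cos_pi]

theorem uu_lt {d : ℕ} (hd : 1 ≤ d) {j k : ℕ} (hjk : j < k) (hk : k ≤ d) : uu d k < uu d j := by
  unfold uu
  have hd' : (0 : ℝ) < d := by exact_mod_cast hd
  have hπ := Real.pi_pos
  have h1 : (j : ℝ) < k := by exact_mod_cast hjk
  have h2 : (k : ℝ) ≤ d := by exact_mod_cast hk
  apply Real.cos_lt_cos_of_nonneg_of_le_pi
  · positivity
  · rw [div_le_iff₀ hd']; nlinarith
  · gcongr

theorem uu_le {d : ℕ} (hd : 1 ≤ d) {j k : ℕ} (hjk : j ≤ k) (hk : k ≤ d) : uu d k ≤ uu d j := by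
  rcases hjk.lt_or_eq with h | rfl
  · exact (uu_lt hd h hk).le
  · exact le_rfl

theorem uu_ge {d : ℕ} (k : ℕ) : -1 ≤ uu d k := Real.neg_one_le_cos _

theorem uu_le_one {d : ℕ} (k : ℕ) : uu d k ≤ 1 := Real.cos_le_one _

/-- the nodes `u 1, …, u d` -/
noncomputable def UU (d : ℕ) : Finset ℝ := (Finset.Icc 1 d).image (uu d)

theorem card_filter_UU {d : ℕ} (hd : 1 ≤ d) {j : ℕ} (hj : j ≤ d) {z : ℝ}
    (h1 : ∀ k, 1 ≤ k → k ≤ j → z < uu d k) (h2 : ∀ k, j < k → k ≤ d → uu d k ≤ z) :
    ((UU d).filter (fun l => z < l)).card = j := by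
  classical
  have e : (UU d).filter (fun l => z < l) = (Finset.Icc 1 j).image (uu d) := by
    ext l
    simp only [UU, Finset.mem_filter, Finset.mem_image, Finset.mem_Icc]
    constructor
    · rintro ⟨⟨k, ⟨hk1, hk2⟩, rfl⟩, hz⟩
      refine ⟨k, ⟨hk1, ?_⟩, rfl⟩
      by_contra hcon
      exact absurd (h2 k (not_le.mp hcon) hk2) (not_le.mpr hz)
    · rintro ⟨k, ⟨hk1, hk2⟩, rfl⟩
      exact ⟨⟨k, ⟨hk1, hk2.trans hj⟩, rfl⟩, h1 k hk1 hk2⟩
  rw [e, Finset.card_image_of_injOn, Nat.card_Icc]
  · omega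
  · intro p hp q hq hpq
    rw [Finset.coe_Icc, Set.mem_Icc] at hp hq
    rcases lt_trichotomy p q with h | h | h
    · exact absurd hpq (uu_lt hd h (hq.2.trans hj)).ne'
    · exact h
    · exact absurd hpq (uu_lt hd h (hp.2.trans hj)).ne

theorem card_UU {d : ℕ} (hd : 1 ≤ d) : (UU d).card = d := by
  have h := card_filter_UU hd le_rfl (z := -2) (fun k _ _ => by have := uu_ge (d := d) k; linarith)
    (fun k h1 h2 => absurd h2 (not_le.mpr h1))
  rwa [Finset.filter_true_of_mem] at h
  intro l hl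
  obtain ⟨k, _, rfl⟩ := Finset.mem_image.mp hl
  have := uu_ge (d := d) k
  linarith

theorem cheb_uu {d : ℕ} (hd : 1 ≤ d) (k : ℕ) :
    (Chebyshev.T ℝ (d : ℤ)).eval (uu d k) = (-1) ^ k := by
  unfold uu
  have := Chebyshev.eval_T_real_cos_int_mul_pi_div (k := k) (n := d) (by omega)
  rw [this]
  simp

/-- no oscillation of full height strictly between two neighbouring extremal points -/
theorem no_jump {d : ℕ} (hd : 1 ≤ d) (h : ℝ[X]) (hdeg : h.natDegree ≤ d) {i : ℕ} (hi : i < d)
    {x y : ℝ} (hx : uu d (i + 1) < x) (hxy : x < y) (hy : y < uu d i)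
    (hb : ∀ k, 1 ≤ k → k ≤ d → |h.eval (uu d k)| ≤ 1)
    (hyv : h.eval y = (-1) ^ i) (hxv : h.eval x = -(-1) ^ i) : False := by
  classical
  have hlow : ∀ k, i < k → k ≤ d → uu d k < x := fun k h1 h2 =>
    lt_of_le_of_lt (uu_le hd (Nat.succ_le_of_lt h1) h2) hx
  have hhigh : ∀ k, k ≤ i → y < uu d k := fun k h1 =>
    lt_of_lt_of_le hy (uu_le hd h1 hi.le)
  have hne : ∀ k, k ≤ d → uu d k ≠ x ∧ uu d k ≠ y := by
    intro k hk
    rcases le_or_gt k i with h1 | h1
    · have := hhigh k h1
      exact ⟨by linarith [this] |> fun (h : x < uu d k) => h.ne', this.ne'⟩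
    · have := hlow k h1 hk
      exact ⟨this.ne, (this.trans hxy).ne⟩
  have hxU : x ∉ UU d := by
    intro hx'
    obtain ⟨k, hk, hk2⟩ := Finset.mem_image.mp hx'
    exact (hne k (Finset.mem_Icc.mp hk).2).1 hk2
  have hyU : y ∉ UU d := by
    intro hx'
    obtain ⟨k, hk, hk2⟩ := Finset.mem_image.mp hx'
    exact (hne k (Finset.mem_Icc.mp hk).2).2 hk2
  set N : Finset ℝ := insert x (insert y (UU d)) with hN
  have hxN : x ∉ insert y (UU d) := by
    rw [Finset.mem_insert]
    rintro (h1 | h1)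
    · exact hxy.ne h1
    · exact hxU h1
  have hNc : N.card = d + 2 := by
    rw [hN, Finset.card_insert_of_notMem hxN, Finset.card_insert_of_notMem hyU, card_UU hd]
  have hsgN : ∀ z : ℝ, sg N z = (-1) ^ ((if z < x then 1 else 0) + ((if z < y then 1 else 0) +
      ((UU d).filter (fun l => z < l)).card)) := by
    intro z
    unfold sg
    congr 1
    rw [hN, Finset.filter_insert, Finset.filter_insert]
    have hy' : y ∉ (UU d).filter (fun l => z < l) := fun h => hyU (Finset.mem_filter.mp h).1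
    have hx' : x ∉ (UU d).filter (fun l => z < l) := fun h => hxU (Finset.mem_filter.mp h).1
    have hx'' : x ∉ insert y ((UU d).filter (fun l => z < l)) := by
      rw [Finset.mem_insert]
      rintro (h1 | h1)
      · exact hxy.ne h1
      · exact hx' h1
    split_ifs with h1 h2 h2
    · rw [Finset.card_insert_of_notMem hx'', Finset.card_insert_of_notMem hy']; ring
    · rw [Finset.card_insert_of_notMem hx']; ring
    · rw [Finset.card_insert_of_notMem hy']; ring
    · ring
  set p : ℝ[X] := Chebyshev.T ℝ (d : ℤ) - h with hp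
  have hpdeg : p.natDegree ≤ d := by
    refine (Polynomial.natDegree_sub_le _ _).trans (max_le ?_ hdeg)
    rw [Chebyshev.natDegree_T]; simp
  have hdep := dependency (t := (id : ℝ → ℝ)) strictMono_id hNc p hpdeg
  have hwt := wt_pos (t := (id : ℝ → ℝ)) strictMono_id N
  have hTle : ∀ z : ℝ, |z| ≤ 1 → |(Chebyshev.T ℝ (d : ℤ)).eval z| ≤ 1 := fun z hz =>
    Chebyshev.abs_eval_T_real_le_one _ hz
  have hx1 : -1 < x := lt_of_le_of_lt (uu_ge _) hx
  have hy1 : y < 1 := lt_of_lt_of_le hy (uu_le_one _)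
  have hTx : |(Chebyshev.T ℝ (d : ℤ)).eval x| < 1 := by
    refine lt_of_le_of_ne (hTle x (abs_le.mpr ⟨hx1.le, by linarith⟩)) ?_
    intro heq
    obtain ⟨k, hk, hk2⟩ := (Chebyshev.abs_eval_T_real_eq_one_iff (n := d) (by omega) x).mp heq
    exact (hne k hk).1 hk2.symm
  have hTy : |(Chebyshev.T ℝ (d : ℤ)).eval y| ≤ 1 :=
    hTle y (abs_le.mpr ⟨by linarith, hy1.le⟩)
  have hpow : ∀ k : ℕ, ((-1 : ℝ) ^ k = 1 ∨ (-1 : ℝ) ^ k = -1) := fun k => neg_one_pow_eq_or ℝ k
  -- signs
  have hsx : sg N x * p.eval x < 0 := by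
    have hc : ((UU d).filter (fun l => x < l)).card = i :=
      card_filter_UU hd hi.le (fun k _ h2 => hxy.trans (hhigh k h2)) (fun k h1 h2 => (hlow k h1 h2).le)
    rw [hsgN, hc, if_neg (lt_irrefl x), if_pos hxy, hp, Polynomial.eval_sub, hxv]
    have hT := abs_lt.mp hTx
    rw [zero_add, add_comm 1 i, pow_succ]
    rcases hpow i with h1 | h1 <;> rw [h1] <;> nlinarith
  have hsy : sg N y * p.eval y ≤ 0 := by
    have hc : ((UU d).filter (fun l => y < l)).card = i :=
      card_filter_UU hd hi.le (fun k _ h2 => hhigh k h2)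
        (fun k h1 h2 => ((hlow k h1 h2).trans hxy).le)
    rw [hsgN, hc, if_neg (lt_irrefl y), if_neg (not_lt.mpr hxy.le), hp, Polynomial.eval_sub, hyv]
    have hT := abs_le.mp hTy
    rw [zero_add, zero_add]
    rcases hpow i with h1 | h1 <;> rw [h1] <;> nlinarith
  have hsu : ∀ k, 1 ≤ k → k ≤ d → sg N (uu d k) * p.eval (uu d k) ≤ 0 := by
    intro k hk1 hk2
    have hc : ((UU d).filter (fun l => uu d k < l)).card = k - 1 :=
      card_filter_UU hd (by omega) (fun q _ h2 => uu_lt hd (by omega) hk2)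
        (fun q h1 h2 => uu_le hd (by omega) h2)
    have hsgk : sg N (uu d k) = -(-1) ^ k := by
      obtain ⟨q, rfl⟩ : ∃ q, k = q + 1 := ⟨k - 1, by omega⟩
      rw [hsgN, hc]
      rcases le_or_gt (q + 1) i with h1 | h1
      · have := hhigh _ h1
        rw [if_neg (by linarith), if_neg (by linarith)]
        simp [pow_succ]
      · have := hlow _ h1 hk2
        rw [if_pos this, if_pos (this.trans hxy)]
        simp only [Nat.add_sub_cancel]
        ring
    rw [hsgk, hp, Polynomial.eval_sub, cheb_uu hd]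
    have hT := abs_le.mp (hb k hk1 hk2)
    rcases hpow k with h1 | h1 <;> rw [h1] <;> nlinarith
  have hneg : ∑ k ∈ N, sg N k * wt (id : ℝ → ℝ) N k * p.eval (id k) < 0 := by
    apply Finset.sum_neg'
    · intro z hz
      have hw := hwt z
      have hs : sg N z * p.eval z ≤ 0 := by
        rw [hN, Finset.mem_insert, Finset.mem_insert] at hz
        rcases hz with rfl | rfl | hz
        · exact hsx.le
        · exact hsy
        · obtain ⟨k, hk, rfl⟩ := Finset.mem_image.mp hz
          exact hsu k (Finset.mem_Icc.mp hk).1 (Finset.mem_Icc.mp hk).2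
      simp only [id]
      nlinarith
    · refine ⟨x, Finset.mem_insert_self _ _, ?_⟩
      have hw := hwt x
      simp only [id]
      nlinarith
  exact absurd hdep hneg.ne

theorem step_low {d : ℕ} (hd : 1 ≤ d) (h : ℝ[X]) (hdeg : h.natDegree ≤ d)
    (hb : ∀ z, -1 ≤ z → z ≤ 1 → |h.eval z| ≤ 1) {i : ℕ} (hi : i < d)
    {x y : ℝ} (hx1 : -1 ≤ x) (hxy : x < y) (hy : y ≤ uu d i)
    (hyv : |h.eval y| = 1) (hxv : h.eval x = - h.eval y) : x ≤ uu d (i + 1) := by
  by_contra hcon
  push Not at hcon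
  have hu1 : uu d 1 < 1 := by
    rw [← uu_zero d]
    exact uu_lt hd Nat.one_pos (by omega)
  have hu := uu_ge (d := d) (i + 1)
  have hy1 : y ≤ 1 := hy.trans (uu_le_one _)
  set δ : ℝ := min ((x - uu d (i + 1)) / 3) ((1 - uu d 1) / 2) with hδ
  have hδ0 : 0 < δ := lt_min (by linarith) (by linarith)
  have hδ1 : δ ≤ (x - uu d (i + 1)) / 3 := min_le_left _ _
  have hδ2 : δ ≤ (1 - uu d 1) / 2 := min_le_right _ _
  have hδ3 : δ < 1 := by linarith
  have h1δ : 0 < 1 - δ := by linarith
  set q : ℝ[X] := C (1 / (1 - δ)) * X + C (δ / (1 - δ)) with hq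
  have hqe : ∀ z : ℝ, q.eval z = (z + δ) / (1 - δ) := by
    intro z
    simp only [hq, eval_add, eval_mul, eval_C, eval_X]
    field_simp
  have hqd : q.natDegree ≤ 1 := by
    rw [hq]
    exact Polynomial.natDegree_linear_le
  have hcd : ∀ g : ℝ[X], g.natDegree ≤ d → (g.comp q).natDegree ≤ d := by
    intro g hg
    refine Polynomial.natDegree_comp_le.trans ?_
    calc g.natDegree * q.natDegree ≤ d * 1 := Nat.mul_le_mul hg hqd
      _ = d := mul_one d
  have hex' : ((1 - δ) * x - δ + δ) / (1 - δ) = x := by field_simp; ring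
  have hey' : ((1 - δ) * y - δ + δ) / (1 - δ) = y := by field_simp; ring
  have hX : uu d (i + 1) < (1 - δ) * x - δ := by nlinarith
  have hXY : (1 - δ) * x - δ < (1 - δ) * y - δ := by nlinarith
  have hY : (1 - δ) * y - δ < uu d i := by nlinarith
  have hbq : ∀ k, 1 ≤ k → k ≤ d → -1 ≤ q.eval (uu d k) ∧ q.eval (uu d k) ≤ 1 := by
    intro k hk1 hk2
    have h1 := uu_ge (d := d) k
    have h2 := uu_le hd hk1 hk2
    rw [hqe]
    constructor
    · rw [le_div_iff₀ h1δ]; linarith
    · rw [div_le_iff₀ h1δ]; linarith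
  have key : h.eval y = (-1) ^ i ∨ h.eval y = -(-1) ^ i := by
    rcases neg_one_pow_eq_or ℝ i with h1 | h1 <;> rw [h1] <;>
      rcases (abs_eq (zero_le_one (α := ℝ))).mp hyv with h2 | h2
    · left; exact h2
    · right; exact h2
    · right; rw [h2]; norm_num
    · left; exact h2
  rcases key with hk | hk
  · refine no_jump hd (h.comp q) (hcd h hdeg) hi hX hXY hY ?_ ?_ ?_
    · intro k hk1 hk2
      rw [Polynomial.eval_comp]
      exact hb _ (hbq k hk1 hk2).1 (hbq k hk1 hk2).2
    · rw [Polynomial.eval_comp, hqe, hey', hk]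
    · rw [Polynomial.eval_comp, hqe, hex', hxv, hk]
  · refine no_jump hd ((-h).comp q) (hcd _ (by rwa [Polynomial.natDegree_neg])) hi hX hXY hY ?_ ?_ ?_
    · intro k hk1 hk2
      rw [Polynomial.eval_comp, Polynomial.eval_neg, abs_neg]
      exact hb _ (hbq k hk1 hk2).1 (hbq k hk1 hk2).2
    · rw [Polynomial.eval_comp, hqe, hey', Polynomial.eval_neg, hk, neg_neg]
    · rw [Polynomial.eval_comp, hqe, hex', Polynomial.eval_neg, hxv, hk, neg_neg]

/-- the polynomial of a coefficient vector -/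
noncomputable def pv {d : ℕ} (a : Fin (d + 1) → ℝ) : ℝ[X] := ∑ k, C (a k) * X ^ (k : ℕ)

theorem pv_eval {d : ℕ} (a : Fin (d + 1) → ℝ) (x : ℝ) : (pv a).eval x = ev a x := by
  unfold pv ev
  rw [Polynomial.eval_finset_sum]
  simp

theorem pv_natDegree {d : ℕ} (a : Fin (d + 1) → ℝ) : (pv a).natDegree ≤ d := by
  unfold pv
  refine Polynomial.natDegree_sum_le_of_forall_le _ _ fun k _ => ?_
  exact (Polynomial.natDegree_C_mul_X_pow_le _ _).trans (by omega)

section arc

variable {a b : ℝ}

/-- the affine map of `[a, b]` to `[-1, 1]` -/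
noncomputable def sc (a b z : ℝ) : ℝ := (2 * z - a - b) / (b - a)

theorem chain_arc {d : ℕ} (hd : 1 ≤ d) (hab : a < b) (S : Finset (Set.Icc a b))
    (hn : d + 1 ≤ S.card) : ∀ (l : List (Set.Icc a b)) (x : Set.Icc a b),
    List.IsChain (LinkRel d (Set.Icc a b)) (x :: l) →
      l.length ≤ d ∧ sc a b x ≤ uu d l.length
  | [], x, _ => by
    refine ⟨Nat.zero_le _, ?_⟩
    rw [List.length_nil, uu_zero]
    unfold sc
    rw [div_le_one (by linarith)]
    have := x.2.2
    linarith
  | y :: l, x, hc => by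
    obtain ⟨hxy, hc'⟩ := List.isChain_cons_cons.mp hc
    obtain ⟨hl, hy⟩ := chain_arc hd hab S hn l y hc'
    have hba : 0 < b - a := by linarith
    have hlt : (x : ℝ) < y := hxy.1
    have hsc : sc a b x < sc a b y := by
      unfold sc
      gcongr
    have hx1 : -1 ≤ sc a b x := by
      unfold sc
      rw [le_div_iff₀ hba]
      have := x.2.1
      linarith
    have hlen : l.length < d := by
      rcases hl.lt_or_eq with h | h
      · exact h
      · exfalso
        rw [h, uu_last hd] at hy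
        linarith
    refine ⟨by rw [List.length_cons]; omega, ?_⟩
    obtain ⟨c, hc0, hc1, hcb⟩ := (ap_iff S hn hxy.1).mpr hxy.2
    set q : ℝ[X] := C ((b - a) / 2) * X + C ((a + b) / 2) with hq
    have hqe : ∀ z : ℝ, q.eval z = (b - a) / 2 * z + (a + b) / 2 := by
      intro z
      simp only [hq, eval_add, eval_mul, eval_C, eval_X]
    have hqd : q.natDegree ≤ 1 := by
      rw [hq]
      exact Polynomial.natDegree_linear_le
    set h : ℝ[X] := (2 * pv c - 1).comp q with hh
    have hhd : h.natDegree ≤ d := by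
      refine Polynomial.natDegree_comp_le.trans ?_
      have h1 : (2 * pv c - 1 : ℝ[X]).natDegree ≤ d := by
        refine (Polynomial.natDegree_sub_le _ _).trans (max_le ?_ (by simp))
        refine Polynomial.natDegree_mul_le.trans ?_
        have : (2 : ℝ[X]).natDegree = 0 := by
          exact Polynomial.natDegree_ofNat 2
        rw [this, zero_add]
        exact pv_natDegree c
      calc _ ≤ d * 1 := Nat.mul_le_mul h1 hqd
        _ = d := mul_one d
    have hhe : ∀ z : ℝ, h.eval z = 2 * ev c ((b - a) / 2 * z + (a + b) / 2) - 1 := by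
      intro z
      rw [hh, Polynomial.eval_comp, hqe, Polynomial.eval_sub, Polynomial.eval_mul, pv_eval]
      simp
    have hinv : ∀ z : ℝ, (b - a) / 2 * sc a b z + (a + b) / 2 = z := by
      intro z
      unfold sc
      field_simp
      ring
    have hhb : ∀ z, -1 ≤ z → z ≤ 1 → |h.eval z| ≤ 1 := by
      intro z hz1 hz2
      have hz : (b - a) / 2 * z + (a + b) / 2 ∈ Set.Icc a b := by
        constructor <;> nlinarith
      have := hcb ⟨_, hz⟩
      rw [hhe, abs_le]
      simp only at this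
      constructor <;> linarith
    have hhy : h.eval (sc a b y) = 1 := by
      rw [hhe, hinv, hc1]; norm_num
    have hhx : h.eval (sc a b x) = -1 := by
      rw [hhe, hinv, hc0]; norm_num
    exact step_low hd h hhd hhb hlen hx1 hsc hy (by rw [hhy]; simp) (by rw [hhx, hhy])

/-- an arc has points `S` of any number -/
theorem exists_points (hab : a < b) (n : ℕ) : ∃ S : Finset (Set.Icc a b), S.card = n := by
  have : Infinite (Set.Icc a b) := (Set.Icc_infinite hab).to_subtype
  exact Infinite.exists_subset_card_eq (Set.Icc a b) n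

/-- the illumination number of the hull of an arc is `d + 1` -/
theorem arc (d : ℕ) (hd : 2 ≤ d) (hab : a < b) :
    IsLeast {k | ∃ V : Finset (EuclideanSpace ℝ (Fin d)), V.card = k ∧
      IsIllum (cyc d (vl (Set.Icc a b))) V} (d + 1) := by
  obtain ⟨S, hS⟩ := exists_points hab (d + 1)
  obtain ⟨m, h1, h2, _, h4, _⟩ := main (T := Set.Icc a b) hd S hS.ge
  have hm : m = d + 1 := by
    refine le_antisymm ?_ h4
    obtain ⟨l, hl, hc⟩ := h2.1
    rcases l with _ | ⟨x, l⟩
    · rw [List.length_nil] at hl; omega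
    · have := (chain_arc (by omega) hab S hS.ge l x hc).1
      rw [List.length_cons] at hl
      omega
  rwa [hm] at h1

end arc

end Pool.Agent.H78.Ill
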