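import Mathlib

/-! Centres for extremal configurations, by induction on the dimension. -/

set_option autoImplicit false

open Polynomial Filter Topology

namespace Pool.Agent.H78.Ill

/-- the property of the polynomial `q` for the pair of centres `l`, `l + 1` -/
def Good (D : ℕ) (d : ℕ) (a : ℕ → ℝ) (l : ℕ) (q : ℝ[X]) : Prop :=
  q.natDegree ≤ D ∧ q.eval (a l) = 0 ∧ q.eval (a (l + 1)) = 1 ∧
    q.derivative.eval (a (l + 1)) < 0 ∧ (l = 0 → 0 < q.derivative.eval (a l)) ∧
    (1 ≤ l → q.derivative.eval (a l) < 0) ∧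
    ∀ j, j < d → j ≠ l → j ≠ l + 1 → 0 < q.eval (a j) ∧ q.eval (a j) < 1

theorem old_link (d : ℕ) (a : ℕ → ℝ) (l : ℕ) (q : ℝ[X]) (hd : 1 ≤ d) (hq : Good d d a l q) :
    ∀ᶠ R in (atTop : Filter ℝ), ∃ q' : ℝ[X], Good (d + 1) d a l q' ∧
      0 < q'.eval R ∧ q'.eval R < 1 := by
  obtain ⟨h1, h2, h3, h4, h5, h6, h7⟩ := hq
  set Q : ℝ[X] := (X - C (a l)) * (X - C (a (l + 1))) * X ^ (d - 1) with hQ
  have hQm : Q.Monic := ((monic_X_sub_C _).mul (monic_X_sub_C _)).mul (monic_X_pow _)
  have hQd : Q.natDegree = d + 1 := by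
    rw [hQ, ((monic_X_sub_C _).mul (monic_X_sub_C _)).natDegree_mul (monic_X_pow _),
      (monic_X_sub_C _).natDegree_mul (monic_X_sub_C _), natDegree_X_sub_C, natDegree_X_sub_C,
      natDegree_X_pow]
    omega
  have hQ0 : Q ≠ 0 := hQm.ne_zero
  set P : ℝ[X] := C (1 / 2) - q with hP
  have hPd : P.degree < Q.degree := by
    rw [degree_eq_natDegree hQ0, hQd]
    refine lt_of_le_of_lt degree_le_natDegree ?_
    have : P.natDegree ≤ d := (natDegree_sub_le _ _).trans (max_le (by simp) h1)
    exact_mod_cast Nat.lt_succ_of_le this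
  have hc : Tendsto (fun R : ℝ => P.eval R / Q.eval R) atTop (𝓝 0) :=
    Polynomial.div_tendsto_atTop_zero_of_degree_lt P Q hPd
  have hcx : ∀ s t : ℝ, Tendsto (fun R : ℝ => s + P.eval R / Q.eval R * t) atTop (𝓝 s) := by
    intro s t
    have := (hc.mul_const t).const_add s
    simpa using this
  have hQl : Q.eval (a l) = 0 := by simp [hQ]
  have hQl1 : Q.eval (a (l + 1)) = 0 := by simp [hQ]
  have hQR : ∀ᶠ R in (atTop : Filter ℝ), Q.eval R ≠ 0 := by
    have : ∀ᶠ R in (atTop : Filter ℝ), a l < R ∧ a (l + 1) < R ∧ 0 < R :=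
      (eventually_gt_atTop _).and ((eventually_gt_atTop _).and (eventually_gt_atTop _))
    filter_upwards [this] with R hR
    simp only [hQ, eval_mul, eval_sub, eval_X, eval_C, eval_pow]
    have e1 : 0 < R - a l := by linarith [hR.1]
    have e2 : 0 < R - a (l + 1) := by linarith [hR.2.1]
    have e3 := hR.2.2
    positivity
  have ev1 : ∀ᶠ R in (atTop : Filter ℝ),
      q.derivative.eval (a (l + 1)) + P.eval R / Q.eval R * Q.derivative.eval (a (l + 1)) < 0 :=
    (hcx _ _).eventually_lt_const h4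
  have ev2 : ∀ᶠ R in (atTop : Filter ℝ), l = 0 →
      0 < q.derivative.eval (a l) + P.eval R / Q.eval R * Q.derivative.eval (a l) := by
    by_cases hl : l = 0
    · filter_upwards [(hcx _ (Q.derivative.eval (a l))).eventually_const_lt (h5 hl)] with R hR _
      exact hR
    · exact Eventually.of_forall fun R h => absurd h hl
  have ev3 : ∀ᶠ R in (atTop : Filter ℝ), 1 ≤ l →
      q.derivative.eval (a l) + P.eval R / Q.eval R * Q.derivative.eval (a l) < 0 := by
    by_cases hl : 1 ≤ l
    · filter_upwards [(hcx _ (Q.derivative.eval (a l))).eventually_lt_const (h6 hl)] with R hR _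
      exact hR
    · exact Eventually.of_forall fun R h => absurd h hl
  have ev4 : ∀ᶠ R in (atTop : Filter ℝ), ∀ j ∈ Finset.range d, j ≠ l → j ≠ l + 1 →
      0 < q.eval (a j) + P.eval R / Q.eval R * Q.eval (a j) ∧
      q.eval (a j) + P.eval R / Q.eval R * Q.eval (a j) < 1 := by
    rw [Filter.eventually_all_finset]
    intro j hj
    by_cases hl : j ≠ l ∧ j ≠ l + 1
    · obtain ⟨h8, h9⟩ := h7 j (Finset.mem_range.mp hj) hl.1 hl.2
      filter_upwards [(hcx _ (Q.eval (a j))).eventually_const_lt h8,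
        (hcx _ (Q.eval (a j))).eventually_lt_const h9] with R hR1 hR2 _ _
      exact ⟨hR1, hR2⟩
    · exact Eventually.of_forall fun R h h' => absurd ⟨h, h'⟩ hl
  filter_upwards [hQR, ev1, ev2, ev3, ev4] with R hR e1 e2 e3 e4
  refine ⟨q + C (P.eval R / Q.eval R) * Q, ⟨?_, ?_, ?_, ?_, ?_, ?_, ?_⟩, ?_⟩
  · refine (natDegree_add_le _ _).trans (max_le (by omega) ?_)
    exact (natDegree_C_mul_le _ _).trans hQd.le
  · rw [eval_add, eval_mul, hQl, h2]; ring
  · rw [eval_add, eval_mul, hQl1, h3]; ring
  · rw [derivative_add, derivative_C_mul, eval_add, eval_mul, eval_C]; exact e1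
  · intro hl
    rw [derivative_add, derivative_C_mul, eval_add, eval_mul, eval_C]; exact e2 hl
  · intro hl
    rw [derivative_add, derivative_C_mul, eval_add, eval_mul, eval_C]; exact e3 hl
  · intro j hj hj1 hj2
    rw [eval_add, eval_mul, eval_C]
    exact e4 j (Finset.mem_range.mpr hj) hj1 hj2
  · have : (q + C (P.eval R / Q.eval R) * Q).eval R = 1 / 2 := by
      rw [eval_add, eval_mul, eval_C, div_mul_cancel₀ _ hR, hP, eval_sub, eval_C]; ring
    rw [this]; norm_num

theorem new_link (d : ℕ) (a : ℕ → ℝ) (hd : 2 ≤ d) (ha : ∀ i j, i < j → j < d → a i < a j) :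
    ∀ᶠ R in (atTop : Filter ℝ), a (d - 1) < R ∧ ∃ q : ℝ[X], q.natDegree ≤ d + 1 ∧
      q.eval (a (d - 1)) = 0 ∧ q.eval R = 1 ∧ q.derivative.eval R < 0 ∧
      q.derivative.eval (a (d - 1)) < 0 ∧
      ∀ j, j < d → j ≠ d - 1 → 0 < q.eval (a j) ∧ q.eval (a j) < 1 := by
  set α := a (d - 1) with hα
  have ev4 : ∀ᶠ R in (atTop : Filter ℝ), ∀ j ∈ Finset.range d,
      (α + 1) + 3 * (α + 1 - a j) < R := by
    rw [Filter.eventually_all_finset]
    intro j _
    exact eventually_gt_atTop _
  filter_upwards [eventually_gt_atTop (α + 1), ev4] with R hR e4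
  set s := R - (α + 1) with hs
  have hs0 : 0 < s := by linarith
  have hRs : R = α + 1 + s := by linarith
  set κ : ℝ := ((s + 1) * s * (s / 3))⁻¹ with hκ
  have hk0 : 0 < (s + 1) * s * (s / 3) := by positivity
  have hκ0 : 0 < κ := inv_pos.mpr hk0
  refine ⟨by linarith, C κ * ((C α - X) * (C (α + 1) - X) * (C (R + s / 3) - X)), ?_, ?_, ?_, ?_,
    ?_, ?_⟩
  · refine (natDegree_C_mul_le _ _).trans ?_
    refine natDegree_mul_le.trans ?_
    have h1 : ∀ t : ℝ, (C t - X : ℝ[X]).natDegree ≤ 1 := fun t =>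
      (natDegree_sub_le _ _).trans (max_le (by simp) natDegree_X_le)
    have h2 := natDegree_mul_le (p := (C α - X : ℝ[X])) (q := (C (α + 1) - X : ℝ[X]))
    have h3 := h1 α
    have h4 := h1 (α + 1)
    have h5 := h1 (R + s / 3)
    omega
  · simp
  · simp only [eval_mul, eval_sub, eval_C, eval_X]
    have : (α - R) * (α + 1 - R) * (R + s / 3 - R) = (s + 1) * s * (s / 3) := by
      rw [hRs]; ring
    rw [this, hκ]
    exact inv_mul_cancel₀ hk0.ne'
  · have : (derivative (C κ * ((C α - X) * (C (α + 1) - X) * (C (R + s / 3) - X)))).eval R =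
        κ * (s * (s / 3) + (s + 1) * (s / 3) - (s + 1) * s) := by
      simp only [derivative_mul, derivative_sub, derivative_C, derivative_X, eval_mul, eval_add,
        eval_sub, eval_C, eval_X, eval_zero, eval_one]
      rw [hRs]; ring
    rw [this]
    apply mul_neg_of_pos_of_neg hκ0
    nlinarith
  · have : (derivative (C κ * ((C α - X) * (C (α + 1) - X) * (C (R + s / 3) - X)))).eval α =
        κ * (-(1 * (1 + s + s / 3))) := by
      simp only [derivative_mul, derivative_sub, derivative_C, derivative_X, eval_mul, eval_add,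
        eval_sub, eval_C, eval_X, eval_zero, eval_one]
      rw [hRs]; ring
    rw [this]
    apply mul_neg_of_pos_of_neg hκ0
    nlinarith
  · intro j hj hj2
    have h1 : a j < α := ha j (d - 1) (by omega) (by omega)
    have h2 := e4 j (Finset.mem_range.mpr hj)
    set A := α + 1 - a j with hA
    have hA0 : 1 < A := by linarith
    have hsA : 3 * A < s := by linarith
    simp only [eval_mul, eval_sub, eval_C, eval_X]
    have e : (α - a j) * (α + 1 - a j) * (R + s / 3 - a j) = (A - 1) * A * (4 / 3 * s + A) := by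
      rw [hRs, hA]; ring
    rw [e]
    have hpos : 0 < (A - 1) * A * (4 / 3 * s + A) := by
      have : 0 < A - 1 := by linarith
      positivity
    refine ⟨mul_pos hκ0 hpos, ?_⟩
    rw [hκ, inv_mul_eq_div, div_lt_one hk0]
    have i1 : A * A < (s / 3) * (s / 3) := by nlinarith
    have i2 : (A - 1) * A * (4 / 3 * s + A) ≤ A * A * (4 / 3 * s + A) := by
      have : 0 ≤ A * (4 / 3 * s + A) := by positivity
      nlinarith
    have i3 : A * A * (4 / 3 * s + A) < (s / 3) * (s / 3) * (4 / 3 * s + s / 3) := by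
      have h6 : (4 / 3 * s + A) < 4 / 3 * s + s / 3 := by linarith
      have h7 : 0 < 4 / 3 * s + A := by positivity
      have h8 : 0 < (s / 3) * (s / 3) := by positivity
      nlinarith
    have i4 : (s / 3) * (s / 3) * (4 / 3 * s + s / 3) < (s + 1) * s * (s / 3) := by
      nlinarith [mul_pos hs0 hs0, mul_pos (mul_pos hs0 hs0) hs0]
    linarith

theorem centers (d : ℕ) (hd : 2 ≤ d) : ∃ (a : ℕ → ℝ) (r : ℕ → ℝ[X]),
    (∀ i j, i < j → j < d → a i < a j) ∧ ∀ l, l + 1 < d → Good d d a l (r l) := by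
  classical
  induction d, hd using Nat.le_induction with
  | base =>
    refine ⟨fun i => i, fun _ => 3 * X - 2 * X ^ 2, fun i j h _ => Nat.cast_lt.mpr h, ?_⟩
    intro l hl
    obtain rfl : l = 0 := by omega
    refine ⟨?_, ?_, ?_, ?_, ?_, ?_, ?_⟩
    · have h3 : (3 * X - 2 * X ^ 2 : ℝ[X]) = C 3 * X - C 2 * X ^ 2 := by
        simp [Polynomial.C_ofNat]
      rw [h3]
      refine (natDegree_sub_le _ _).trans (max_le ?_ ?_)
      · exact (natDegree_C_mul_le _ _).trans (natDegree_X_le.trans (by norm_num))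
      · exact natDegree_C_mul_X_pow_le _ _
    · simp
    · simp; norm_num
    · simp; norm_num
    · intro _; simp
    · intro h; omega
    · intro j hj h1 h2; omega
  | succ d hd ih =>
    obtain ⟨a, r, ha, hr⟩ := ih
    have ev1 : ∀ᶠ R in (atTop : Filter ℝ), ∀ l ∈ Finset.range (d - 1), ∃ q' : ℝ[X],
        Good (d + 1) d a l q' ∧ 0 < q'.eval R ∧ q'.eval R < 1 := by
      rw [Filter.eventually_all_finset]
      intro l hl
      exact old_link d a l (r l) (by omega) (hr l (by have := Finset.mem_range.mp hl; omega))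
    obtain ⟨R, hR1, hR, q, hq1, hq2, hq3, hq4, hq5, hq6⟩ := (ev1.and (new_link d a hd ha)).exists
    choose! r' hr' using hR1
    set b : ℕ → ℝ := fun i => if i < d then a i else R with hb
    have hbl : ∀ i, i < d → b i = a i := fun i hi => if_pos hi
    have hbd : b d = R := if_neg (lt_irrefl d)
    refine ⟨b, fun l => if l + 1 < d then r' l else q, ?_, ?_⟩
    · intro i j hij hj
      rw [hbl i (by omega)]
      rcases Nat.lt_or_ge j d with h | h
      · rw [hbl j h]; exact ha i j hij h
      · obtain rfl : j = d := by omega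
        rw [hbd]
        rcases Nat.lt_or_ge i (j - 1) with h' | h'
        · exact (ha i (j - 1) h' (by omega)).trans hR
        · obtain rfl : i = j - 1 := by omega
          exact hR
    · intro l hl
      by_cases hl' : l + 1 < d
      · obtain ⟨⟨h1, h2, h3, h4, h5, h6, h7⟩, h8, h9⟩ := hr' l (Finset.mem_range.mpr (by omega))
        simp only [if_pos hl']
        unfold Good
        rw [hbl l (by omega), hbl (l + 1) hl']
        refine ⟨h1, h2, h3, h4, h5, h6, ?_⟩
        intro j hj h10 h11
        rcases Nat.lt_or_ge j d with h | h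
        · rw [hbl j h]; exact h7 j h h10 h11
        · obtain rfl : j = d := by omega
          rw [hbd]; exact ⟨h8, h9⟩
      · obtain rfl : l = d - 1 := by omega
        have e : d - 1 + 1 = d := by omega
        simp only [if_neg hl']
        unfold Good
        rw [hbl (d - 1) (by omega), e, hbd]
        refine ⟨hq1, hq2, hq3, hq4, fun h => by omega, fun _ => hq5, ?_⟩
        intro j hj h10 h11
        rw [hbl j (by omega)]
        exact hq6 j (by omega) h10

end Pool.Agent.H78.Ill
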