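import Mathlib
import Pool.Agent.H78.Ill.CI

/-! Extremal configurations: `2 d - 1` pairwise linked parameters with a cluster. -/

set_option autoImplicit false

open Polynomial Filter Topology

namespace Pool.Agent.H78.Ill

theorem near_lt {q : ℝ → ℝ} (hq : Continuous q) {x y : ℝ} (h : q x < q y) :
    ∀ᶠ η in 𝓝[>] (0:ℝ), ∀ u v, |u - x| < η → |v - y| < η → q u < q v := by
  obtain ⟨m, h1, h2⟩ := exists_between h
  have e1 : ∀ᶠ u in 𝓝 x, q u < m := hq.continuousAt.eventually_lt_const h1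
  have e2 : ∀ᶠ v in 𝓝 y, m < q v := hq.continuousAt.eventually_const_lt h2
  rw [Metric.eventually_nhds_iff] at e1 e2
  obtain ⟨η1, hη1, H1⟩ := e1
  obtain ⟨η2, hη2, H2⟩ := e2
  filter_upwards [Ioo_mem_nhdsGT (lt_min hη1 hη2)] with η hη u v hu hv
  have h3 := hη.2.trans_le (min_le_left _ _)
  have h4 := hη.2.trans_le (min_le_right _ _)
  exact (H1 (by rw [Real.dist_eq]; exact hu.trans h3)).trans
    (H2 (by rw [Real.dist_eq]; exact hv.trans h4))

theorem near_mono {q : ℝ[X]} {x : ℝ} (h : 0 < q.derivative.eval x) :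
    ∀ᶠ η in 𝓝[>] (0:ℝ), ∀ u v, |u - x| < η → |v - x| < η → u < v → q.eval u < q.eval v := by
  have e1 : ∀ᶠ u in 𝓝 x, 0 < q.derivative.eval u :=
    q.derivative.continuous.continuousAt.eventually_const_lt h
  rw [Metric.eventually_nhds_iff] at e1
  obtain ⟨η1, hη1, H1⟩ := e1
  filter_upwards [Ioo_mem_nhdsGT hη1] with η hη u v hu hv huv
  have hmono : StrictMonoOn (fun z => q.eval z) (Set.Ioo (x - η) (x + η)) := by
    apply strictMonoOn_of_deriv_pos (convex_Ioo _ _) q.continuous.continuousOn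
    intro z hz
    rw [interior_Ioo] at hz
    rw [Polynomial.deriv]
    refine H1 ?_
    rw [Real.dist_eq, abs_lt]
    constructor <;> linarith [hz.1, hz.2, hη.2]
  rw [abs_lt] at hu hv
  exact hmono ⟨by linarith, by linarith⟩ ⟨by linarith, by linarith⟩ huv

theorem near_anti {q : ℝ[X]} {x : ℝ} (h : q.derivative.eval x < 0) :
    ∀ᶠ η in 𝓝[>] (0:ℝ), ∀ u v, |u - x| < η → |v - x| < η → u < v → q.eval v < q.eval u := by
  have h' : 0 < (-q).derivative.eval x := by
    rw [derivative_neg, eval_neg]; linarith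
  filter_upwards [near_mono h'] with η hη u v hu hv huv
  have := hη u v hu hv huv
  rw [eval_neg, eval_neg] at this
  linarith

theorem exists_eps {P : ℝ[X]} {a η : ℝ} (hη : 0 < η) (h0 : P.eval a = 0)
    (h : P.derivative.eval a ≠ 0) :
    ∀ᶠ ε in 𝓝[>] (0:ℝ), ∃ b, b ≠ a ∧ |b - a| < η ∧ P.eval b = ε := by
  have hex : ∃ x, |x - a| < η ∧ 0 < P.eval x := by
    by_contra hcon
    push Not at hcon
    apply h
    have hloc : IsLocalMax (fun x => P.eval x) a := by
      have : ∀ᶠ x in 𝓝 a, P.eval x ≤ P.eval a := by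
        rw [Metric.eventually_nhds_iff]
        exact ⟨η, hη, fun x hx => by rw [h0]; exact hcon x (by rwa [Real.dist_eq] at hx)⟩
      exact this
    exact hloc.hasDerivAt_eq_zero (P.hasDerivAt a)
  obtain ⟨x, hx, hPx⟩ := hex
  filter_upwards [Ioo_mem_nhdsGT hPx] with ε hε
  have h1 : ε ∈ Set.uIcc (P.eval a) (P.eval x) := by
    rw [h0, Set.uIcc_of_le hPx.le]
    exact ⟨hε.1.le, hε.2.le⟩
  obtain ⟨b, hb, hb2⟩ := intermediate_value_uIcc (f := fun z => P.eval z)
    (P.continuous.continuousOn) h1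
  refine ⟨b, ?_, lt_of_le_of_lt (Set.abs_sub_left_of_mem_uIcc hb) hx, hb2⟩
  rintro rfl
  simp only at hb2
  rw [h0] at hb2
  exact hε.1.ne hb2

/-- separated by a polynomial with values in `[0, 1]` on `F` -/
def ApR (d : ℕ) (F : Set ℝ) (x y : ℝ) : Prop :=
  ∃ p : ℝ[X], p.natDegree ≤ d ∧ p.eval x = 0 ∧ p.eval y = 1 ∧ ∀ z ∈ F, 0 ≤ p.eval z ∧ p.eval z ≤ 1

/-- rescaling -/
theorem apR_of {d : ℕ} {F : Set ℝ} {x y : ℝ} (q : ℝ[X]) (hq : q.natDegree ≤ d)
    (hxy : q.eval x < q.eval y) (hF : ∀ z ∈ F, q.eval x ≤ q.eval z ∧ q.eval z ≤ q.eval y) :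
    ApR d F x y := by
  have hpos : 0 < q.eval y - q.eval x := by linarith
  have he : ∀ z : ℝ, (C (q.eval y - q.eval x)⁻¹ * (q - C (q.eval x))).eval z =
      (q.eval z - q.eval x) / (q.eval y - q.eval x) := by
    intro z
    rw [eval_mul, eval_sub, eval_C, eval_C, inv_mul_eq_div]
  refine ⟨C (q.eval y - q.eval x)⁻¹ * (q - C (q.eval x)), ?_, ?_, ?_, ?_⟩
  · refine (natDegree_C_mul_le _ _).trans ?_
    exact (natDegree_sub_le _ _).trans (max_le hq (by simp))
  · rw [he, sub_self, zero_div]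
  · rw [he, div_self hpos.ne']
  · intro z hz
    rw [he]
    obtain ⟨h1, h2⟩ := hF z hz
    constructor
    · apply div_nonneg <;> linarith
    · rw [div_le_one hpos]; linarith

theorem config (d : ℕ) (hd : 2 ≤ d) : ∃ (c : ℕ → ℝ) (F : Set ℝ) (δ : ℝ), 0 < δ ∧
    (∀ i, i ≤ 2 * d - 2 → c i ∈ F) ∧
    (∀ i, i < 2 * d - 2 → c i < c (i + 1) ∧ ApR d F (c i) (c (i + 1))) ∧
    Set.Ico (c 0) (c 0 + δ) ⊆ F ∧ c 0 + δ ≤ c 1 := by
  classical
  obtain ⟨a, r, ha, hr⟩ := centers d hd
  -- the polynomial vanishing at the centres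
  obtain ⟨P, hPd, hP0, hP1, hPa⟩ : ∃ P : ℝ[X], P.natDegree ≤ d ∧ (∀ j, j < d → P.eval (a j) = 0) ∧
      (∀ j, j < d → P.derivative.eval (a j) ≠ 0) ∧ 0 < P.derivative.eval (a 0) := by
    set P0 := Lagrange.nodal (Finset.range d) a with hP0
    have h1 : P0.natDegree = d := by rw [hP0, Lagrange.natDegree_nodal, Finset.card_range]
    have h2 : ∀ j, j < d → P0.eval (a j) = 0 := fun j hj =>
      Lagrange.eval_nodal_at_node (Finset.mem_range.mpr hj)
    have h3 : ∀ j, j < d → P0.derivative.eval (a j) ≠ 0 := by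
      intro j hj
      rw [hP0, Lagrange.eval_nodal_derivative_eval_node_eq (Finset.mem_range.mpr hj),
        Lagrange.eval_nodal, Finset.prod_ne_zero_iff]
      intro i hi
      obtain ⟨hi1, hi2⟩ := Finset.mem_erase.mp hi
      have hi3 := Finset.mem_range.mp hi2
      rcases lt_or_gt_of_ne hi1 with h | h
      · have := ha i j h hj
        exact (sub_pos.mpr this).ne'
      · have := ha j i h hi3
        exact (sub_neg.mpr this).ne
    rcases lt_or_gt_of_ne (h3 0 (by omega)) with h | h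
    · refine ⟨-P0, by rw [natDegree_neg]; exact h1.le, ?_, ?_, ?_⟩
      · intro j hj; rw [eval_neg, h2 j hj, neg_zero]
      · intro j hj; rw [derivative_neg, eval_neg]; exact neg_ne_zero.mpr (h3 j hj)
      · rw [derivative_neg, eval_neg]; linarith
    · exact ⟨P0, h1.le, h2, h3, h⟩
  -- nearness
  have E1 : ∀ᶠ η in 𝓝[>] (0:ℝ), ∀ i ∈ Finset.range d, ∀ j ∈ Finset.range d, i < j →
      ∀ u v : ℝ, |u - a i| < η → |v - a j| < η → u < v := by
    rw [Filter.eventually_all_finset]
    intro i _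
    rw [Filter.eventually_all_finset]
    intro j hj
    by_cases h : i < j
    · filter_upwards [near_lt continuous_id (ha i j h (Finset.mem_range.mp hj))] with η hη _
      exact hη
    · exact Eventually.of_forall fun _ h' => absurd h' h
  have E2 : ∀ᶠ η in 𝓝[>] (0:ℝ), ∀ l ∈ Finset.range (d - 1),
      ∀ u v : ℝ, |u - a l| < η → |v - a (l + 1)| < η → (r l).eval u < (r l).eval v := by
    rw [Filter.eventually_all_finset]
    intro l hl
    obtain ⟨h1, h2, h3, _⟩ := hr l (by have := Finset.mem_range.mp hl; omega)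
    exact near_lt (r l).continuous (by rw [h2, h3]; norm_num)
  have E3 : ∀ᶠ η in 𝓝[>] (0:ℝ), ∀ l ∈ Finset.range (d - 1), ∀ j ∈ Finset.range d, j ≠ l →
      j ≠ l + 1 → ∀ u v : ℝ, |u - a l| < η → |v - a j| < η → (r l).eval u < (r l).eval v := by
    rw [Filter.eventually_all_finset]
    intro l hl
    rw [Filter.eventually_all_finset]
    intro j hj
    obtain ⟨h1, h2, h3, _, _, _, h7⟩ := hr l (by have := Finset.mem_range.mp hl; omega)
    by_cases h : j ≠ l ∧ j ≠ l + 1
    · filter_upwards [near_lt (r l).continuous (x := a l) (y := a j)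
        (by rw [h2]; exact (h7 j (Finset.mem_range.mp hj) h.1 h.2).1)] with η hη _ _
      exact hη
    · exact Eventually.of_forall fun _ h' h'' => absurd ⟨h', h''⟩ h
  have E4 : ∀ᶠ η in 𝓝[>] (0:ℝ), ∀ l ∈ Finset.range (d - 1), ∀ j ∈ Finset.range d, j ≠ l →
      j ≠ l + 1 → ∀ u v : ℝ, |u - a j| < η → |v - a (l + 1)| < η → (r l).eval u < (r l).eval v := by
    rw [Filter.eventually_all_finset]
    intro l hl
    rw [Filter.eventually_all_finset]
    intro j hj
    obtain ⟨h1, h2, h3, _, _, _, h7⟩ := hr l (by have := Finset.mem_range.mp hl; omega)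
    by_cases h : j ≠ l ∧ j ≠ l + 1
    · filter_upwards [near_lt (r l).continuous (x := a j) (y := a (l + 1))
        (by rw [h3]; exact (h7 j (Finset.mem_range.mp hj) h.1 h.2).2)] with η hη _ _
      exact hη
    · exact Eventually.of_forall fun _ h' h'' => absurd ⟨h', h''⟩ h
  have E5 : ∀ᶠ η in 𝓝[>] (0:ℝ), ∀ l ∈ Finset.range (d - 1), ∀ u v : ℝ, |u - a (l + 1)| < η →
      |v - a (l + 1)| < η → u < v → (r l).eval v < (r l).eval u := by
    rw [Filter.eventually_all_finset]
    intro l hl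
    obtain ⟨_, _, _, h4, _⟩ := hr l (by have := Finset.mem_range.mp hl; omega)
    exact near_anti h4
  have E6 : ∀ᶠ η in 𝓝[>] (0:ℝ), ∀ l ∈ Finset.range (d - 1), 1 ≤ l → ∀ u v : ℝ, |u - a l| < η →
      |v - a l| < η → u < v → (r l).eval v < (r l).eval u := by
    rw [Filter.eventually_all_finset]
    intro l hl
    obtain ⟨_, _, _, _, _, h6, _⟩ := hr l (by have := Finset.mem_range.mp hl; omega)
    by_cases h : 1 ≤ l
    · filter_upwards [near_anti (h6 h)] with η hη _
      exact hη
    · exact Eventually.of_forall fun _ h' => absurd h' h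
  have E7 : ∀ᶠ η in 𝓝[>] (0:ℝ), ∀ u v : ℝ, |u - a 0| < η →
      |v - a 0| < η → u < v → (r 0).eval u < (r 0).eval v := by
    obtain ⟨_, _, _, _, h5, _, _⟩ := hr 0 (by omega)
    exact near_mono (h5 rfl)
  have E8 : ∀ᶠ η in 𝓝[>] (0:ℝ), ∀ u v : ℝ, |u - a 0| < η →
      |v - a 0| < η → u < v → P.eval u < P.eval v := near_mono hPa
  obtain ⟨η, ⟨⟨⟨⟨⟨⟨⟨⟨H1, H2⟩, H3⟩, H4⟩, H5⟩, H6⟩, H7⟩, H8⟩, hη⟩⟩ :=
    ((((((((E1.and E2).and E3).and E4).and E5).and E6).and E7).and E8).and
      (self_mem_nhdsWithin (s := Set.Ioi (0:ℝ)))).exists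
  have hη0 : (0:ℝ) < η := hη
  -- the second points
  have E9 : ∀ᶠ ε in 𝓝[>] (0:ℝ), ∀ j ∈ Finset.range d, ∃ b, b ≠ a j ∧ |b - a j| < η ∧
      P.eval b = ε := by
    rw [Filter.eventually_all_finset]
    intro j hj
    have hj' := Finset.mem_range.mp hj
    exact exists_eps hη0 (hP0 j hj') (hP1 j hj')
  obtain ⟨ε, H9, hε⟩ := (E9.and (self_mem_nhdsWithin (s := Set.Ioi (0:ℝ)))).exists
  have hε0 : (0:ℝ) < ε := hε
  choose! b' hb' using H9
  set b : ℕ → ℝ := fun j => if j = 0 then a 0 else b' j with hb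
  have hbz : b 0 = a 0 := if_pos rfl
  have hbj : ∀ j, 1 ≤ j → b j = b' j := fun j hj => if_neg (by omega)
  -- the cluster
  have E10 : ∀ᶠ z in 𝓝 (a 0), P.eval z < ε :=
    P.continuous.continuousAt.eventually_lt_const
      (show P.eval (a 0) < ε by rw [hP0 0 (by omega)]; exact hε0)
  rw [Metric.eventually_nhds_iff] at E10
  obtain ⟨δ1, hδ1, H10⟩ := E10
  set δ := min η δ1 with hδ
  have hδ0 : 0 < δ := lt_min hη0 hδ1
  set x : ℕ → ℝ := fun j => min (a j) (b j) with hx
  set y : ℕ → ℝ := fun j => max (a j) (b j) with hy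
  have hbn : ∀ j, j < d → |b j - a j| < η := by
    intro j hj
    rcases Nat.eq_zero_or_pos j with h | h
    · subst h; rw [hbz, sub_self, abs_zero]; exact hη0
    · rw [hbj j h]; exact (hb' j (Finset.mem_range.mpr hj)).2.1
  have han : ∀ j, |a j - a j| < η := fun j => by rw [sub_self, abs_zero]; exact hη0
  have hxn : ∀ j, j < d → |x j - a j| < η := by
    intro j hj
    rcases min_choice (a j) (b j) with h | h
    · simp only [hx]; rw [h]; exact han j
    · simp only [hx]; rw [h]; exact hbn j hj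
  have hyn : ∀ j, j < d → |y j - a j| < η := by
    intro j hj
    rcases max_choice (a j) (b j) with h | h
    · simp only [hy]; rw [h]; exact han j
    · simp only [hy]; rw [h]; exact hbn j hj
  have hy0 : y 0 = a 0 := by simp only [hy]; rw [hbz, max_self]
  set F : Set ℝ := Set.Ico (a 0) (a 0 + δ) ∪ {z | ∃ j, 1 ≤ j ∧ j < d ∧ (z = a j ∨ z = b j)} with hF
  -- description of the points of F
  have hFn : ∀ z ∈ F, ∃ j, j < d ∧ |z - a j| < η ∧ 0 ≤ P.eval z ∧ P.eval z ≤ ε ∧
      (j = 0 → a 0 ≤ z) ∧ (1 ≤ j → x j ≤ z ∧ z ≤ y j) := by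
    rintro z (hz | ⟨j, hj1, hj2, hz⟩)
    · refine ⟨0, by omega, ?_, ?_, ?_, fun _ => hz.1, fun h => by omega⟩
      · rw [abs_lt]
        have := min_le_left η δ1
        constructor <;> linarith [hz.1, hz.2]
      · rcases hz.1.lt_or_eq with h | h
        · have h1 := H8 (a 0) z (han 0) (by
            rw [abs_lt]
            have := min_le_left η δ1
            constructor <;> linarith [hz.1, hz.2]) h
          rw [hP0 0 (by omega)] at h1
          exact h1.le
        · rw [← h, hP0 0 (by omega)]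
      · refine (H10 ?_).le
        rw [Real.dist_eq, abs_lt]
        have := min_le_right η δ1
        constructor <;> linarith [hz.1, hz.2]
    · rcases hz with rfl | rfl
      · refine ⟨j, hj2, han j, ?_, ?_, fun h => by omega, fun _ => ⟨min_le_left _ _,
          le_max_left _ _⟩⟩
        · rw [hP0 j hj2]
        · rw [hP0 j hj2]; exact hε0.le
      · have h1 := (hb' j (Finset.mem_range.mpr hj2)).2.2
        rw [← hbj j hj1] at h1
        refine ⟨j, hj2, hbn j hj2, ?_, ?_, fun h => by omega, fun _ => ⟨min_le_right _ _,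
          le_max_right _ _⟩⟩
        · rw [h1]; exact hε0.le
        · rw [h1]
  have hxF : ∀ j, 1 ≤ j → j < d → x j ∈ F := by
    intro j h1 h2
    right
    refine ⟨j, h1, h2, ?_⟩
    rcases min_choice (a j) (b j) with h | h
    · left; exact h
    · right; exact h
  have hyF : ∀ j, j < d → y j ∈ F := by
    intro j h2
    rcases Nat.eq_zero_or_pos j with h | h
    · subst h; rw [hy0]; left; exact ⟨le_rfl, by linarith⟩
    · right
      refine ⟨j, h, h2, ?_⟩
      rcases max_choice (a j) (b j) with h | h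
      · left; exact h
      · right; exact h
  -- links inside a pair
  have L1 : ∀ j, 1 ≤ j → j < d → x j < y j ∧ ApR d F (x j) (y j) := by
    intro j h1 h2
    obtain ⟨g1, g2, g3⟩ := hb' j (Finset.mem_range.mpr h2)
    rw [← hbj j h1] at g1 g2 g3
    rcases lt_or_gt_of_ne g1 with h | h
    · -- b j < a j
      have e1 : x j = b j := min_eq_right h.le
      have e2 : y j = a j := max_eq_left h.le
      rw [e1, e2]
      refine ⟨h, apR_of (-P) (by rw [natDegree_neg]; exact hPd) ?_ ?_⟩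
      · rw [eval_neg, eval_neg, g3, hP0 j h2]; linarith
      · intro z hz
        obtain ⟨_, _, _, h3, h4, _⟩ := hFn z hz
        rw [eval_neg, eval_neg, eval_neg, g3, hP0 j h2]
        constructor <;> linarith
    · have e1 : x j = a j := min_eq_left h.le
      have e2 : y j = b j := max_eq_right h.le
      rw [e1, e2]
      refine ⟨h, apR_of P hPd ?_ ?_⟩
      · rw [g3, hP0 j h2]; exact hε0
      · intro z hz
        obtain ⟨_, _, _, h3, h4, _⟩ := hFn z hz
        rw [g3, hP0 j h2]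
        exact ⟨h3, h4⟩
  -- links between neighbouring pairs
  have L2 : ∀ j, j + 1 < d → y j < x (j + 1) ∧ ApR d F (y j) (x (j + 1)) := by
    intro j hj
    have hj' : j ∈ Finset.range (d - 1) := Finset.mem_range.mpr (by omega)
    refine ⟨H1 j (Finset.mem_range.mpr (by omega)) (j + 1) (Finset.mem_range.mpr hj) (by omega)
      _ _ (hyn j (by omega)) (hxn (j + 1) hj), ?_⟩
    refine apR_of (r j) (hr j hj).1 (H2 j hj' _ _ (hyn j (by omega)) (hxn (j + 1) hj)) ?_
    intro z hz
    obtain ⟨i, hi, hzi, _, _, h0, h1⟩ := hFn z hz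
    by_cases hij : i = j
    · subst hij
      refine ⟨?_, (H2 i hj' _ _ hzi (hxn (i + 1) hj)).le⟩
      rcases Nat.eq_zero_or_pos i with h | h
      · subst h
        have h2 := h0 rfl
        rw [hy0]
        rcases h2.lt_or_eq with h3 | h3
        · exact (H7 _ _ (han 0) hzi h3).le
        · rw [← h3]
      · have h2 := (h1 h).2
        rcases h2.lt_or_eq with h3 | h3
        · exact (H6 i hj' h _ _ hzi (hyn i hi) h3).le
        · rw [← h3]
    · by_cases hij' : i = j + 1
      · subst hij'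
        refine ⟨(H2 j hj' _ _ (hyn j (by omega)) hzi).le, ?_⟩
        have h2 := (h1 (by omega)).1
        rcases h2.lt_or_eq with h3 | h3
        · exact (H5 j hj' _ _ (hxn (j + 1) hj) hzi h3).le
        · rw [← h3]
      · exact ⟨(H3 j hj' i (Finset.mem_range.mpr hi) hij hij' _ _ (hyn j (by omega)) hzi).le,
          (H4 j hj' i (Finset.mem_range.mpr hi) hij hij' _ _ hzi (hxn (j + 1) hj)).le⟩
  set c : ℕ → ℝ := fun i => if i % 2 = 1 then x ((i + 1) / 2) else y (i / 2) with hc
  have hc0 : c 0 = a 0 := by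
    simp only [hc]
    rw [if_neg (by omega), Nat.zero_div, hy0]
  have hc1 : c 1 = x 1 := by simp [hc]
  refine ⟨c, F, δ, hδ0, ?_, ?_, ?_, ?_⟩
  · intro i hi
    simp only [hc]
    split_ifs with h
    · exact hxF _ (by omega) (by omega)
    · exact hyF _ (by omega)
  · intro i hi
    simp only [hc]
    rcases Nat.mod_two_eq_zero_or_one i with h | h
    · have e1 : (i + 1) % 2 = 1 := by omega
      have e2 : (i + 1 + 1) / 2 = i / 2 + 1 := by omega
      rw [if_neg (by omega), if_pos e1, e2]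
      exact L2 (i / 2) (by omega)
    · have e1 : ¬ (i + 1) % 2 = 1 := by omega
      rw [if_pos h, if_neg e1]
      exact L1 ((i + 1) / 2) (by omega) (by omega)
  · rw [hc0]; exact Set.subset_union_left
  · rw [hc0, hc1]
    by_contra hcon
    push Not at hcon
    have h1 := H1 0 (Finset.mem_range.mpr (by omega)) 1 (Finset.mem_range.mpr (by omega))
      (by omega) (x 1) (x 1) (by
        rw [abs_lt]
        have h2 := min_le_left η δ1
        have h3 := H1 0 (Finset.mem_range.mpr (by omega)) 1 (Finset.mem_range.mpr (by omega))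
          (by omega) (a 0) (x 1) (han 0) (hxn 1 (by omega))
        constructor <;> linarith) (hxn 1 (by omega))
    exact lt_irrefl _ h1

end Pool.Agent.H78.Ill
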