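import Mathlib
import Pool.Agent.H78.Ill.CH

/-! Transfer of the results to sets of real numbers. -/

set_option autoImplicit false
set_option linter.unusedSectionVars false

open scoped RealInnerProductSpace

namespace Pool.Agent.H78.Ill

/-- the weight of `x` in the finite set `N` of reals -/
noncomputable def wtR (N : Finset ℝ) (x : ℝ) : ℝ := ∏ y ∈ N.erase x, |x - y|⁻¹

/-- linked, for real numbers -/
def LinkedR (d : ℕ) (T : Set ℝ) (x y : ℝ) : Prop :=
  ∀ N : Finset ℝ, (∀ z ∈ N, z ∈ T) → N.card = d + 2 → x ∈ N → y ∈ N →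
    (∀ z ∈ N, ¬ (x < z ∧ z < y)) → wtR N x + wtR N y ≤ (1 / 2) * ∑ z ∈ N, wtR N z

/-- antipodal, for real numbers -/
def AntiR (d : ℕ) (T : Set ℝ) (x y : ℝ) : Prop :=
  ∃ f : EuclideanSpace ℝ (Fin d), ⟪f, moment d x⟫ < ⟪f, moment d y⟫ ∧
    ∀ z ∈ T, ⟪f, moment d x⟫ ≤ ⟪f, moment d z⟫ ∧ ⟪f, moment d z⟫ ≤ ⟪f, moment d y⟫

variable {d : ℕ} {T : Set ℝ}

theorem wtR_map (N : Finset T) (i : T) :
    wtR (N.map (Function.Embedding.subtype _)) i = wt (vl T) N i := by
  classical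
  unfold wtR wt
  have h : (N.map (Function.Embedding.subtype (· ∈ T))).erase (i : ℝ) =
      (N.erase i).map (Function.Embedding.subtype (· ∈ T)) := by
    rw [Finset.map_erase]; rfl
  rw [h, Finset.prod_map]
  rfl

theorem linkedR_iff (i j : T) : LinkedR d T i j ↔ Linked d (vl T) i j := by
  classical
  constructor
  · intro h N hN hi hj hk
    have h1 := h (N.map (Function.Embedding.subtype _)) (by
        intro z hz
        obtain ⟨w, _, rfl⟩ := Finset.mem_map.mp hz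
        exact w.2) (by rw [Finset.card_map]; exact hN)
      (Finset.mem_map.mpr ⟨i, hi, rfl⟩) (Finset.mem_map.mpr ⟨j, hj, rfl⟩) (by
        intro z hz
        obtain ⟨w, hw, rfl⟩ := Finset.mem_map.mp hz
        exact hk w hw)
    rw [wtR_map, wtR_map, Finset.sum_map] at h1
    convert h1 using 2
    refine Finset.sum_congr rfl fun k _ => ?_
    exact (wtR_map N k).symm
  · intro h N hT hN hi hj hk
    have e : (N.subtype (· ∈ T)).map (Function.Embedding.subtype _) = N :=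
      Finset.subtype_map_of_mem hT
    have h1 := h (N.subtype (· ∈ T)) (by
        rw [← Finset.card_map (Function.Embedding.subtype _), e]; exact hN)
      (Finset.mem_subtype.mpr hi) (Finset.mem_subtype.mpr hj) (by
        intro z hz
        exact hk z (Finset.mem_subtype.mp hz))
    rw [← wtR_map, ← wtR_map, e] at h1
    have h2 : ∑ k ∈ N.subtype (· ∈ T), wt (vl T) (N.subtype (· ∈ T)) k = ∑ z ∈ N, wtR N z := by
      conv_rhs => rw [← e]
      rw [Finset.sum_map]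
      refine Finset.sum_congr rfl fun k _ => ?_
      rw [← wtR_map]
      rfl
    rw [h2] at h1
    exact h1

theorem antiR_iff (i j : T) : AntiR d T i j ↔ Antipodal d (vl T) i j := by
  constructor
  · rintro ⟨f, h1, h2⟩
    exact ⟨f, h1, fun k => h2 k k.2⟩
  · rintro ⟨f, h1, h2⟩
    exact ⟨f, h1, fun z hz => h2 ⟨z, hz⟩⟩

theorem range_vl : (Set.range fun i : T => moment d (vl T i)) = moment d '' T := by
  ext q
  constructor
  · rintro ⟨i, rfl⟩; exact ⟨i, i.2, rfl⟩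
  · rintro ⟨z, hz, rfl⟩; exact ⟨⟨z, hz⟩, rfl⟩

/-- the hull of a part of the moment curve -/
noncomputable def hullR (d : ℕ) (T : Set ℝ) : Set (EuclideanSpace ℝ (Fin d)) :=
  convexHull ℝ (moment d '' T)

theorem cyc_eq : cyc d (vl T) = hullR d T := by
  unfold cyc hullR
  rw [range_vl]

theorem chain_iff (k : ℕ) :
    (∃ l : List T, l.length = k ∧ List.IsChain (LinkRel d T) l) ↔
    ∃ l : List ℝ, l.length = k ∧ (∀ x ∈ l, x ∈ T) ∧
      l.IsChain (fun x y => x < y ∧ LinkedR d T x y) := by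
  constructor
  · rintro ⟨l, rfl, hl⟩
    refine ⟨l.map Subtype.val, by simp, ?_, ?_⟩
    · intro x hx
      obtain ⟨w, _, rfl⟩ := List.mem_map.mp hx
      exact w.2
    · rw [List.isChain_map]
      refine List.IsChain.imp (fun a b h => ?_) hl
      exact ⟨h.1, (linkedR_iff a b).mpr h.2⟩
  · rintro ⟨l, rfl, hT, hl⟩
    lift l to List T using hT
    refine ⟨l, by simp, ?_⟩
    rw [List.isChain_map] at hl
    refine List.IsChain.imp (fun a b h => ?_) hl
    exact ⟨h.1, (linkedR_iff a b).mp h.2⟩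

theorem anti_iff (k : ℕ) :
    (∃ S : Finset T, S.card = k ∧ ∀ i ∈ S, ∀ j ∈ S, i < j → Antipodal d (vl T) i j) ↔
    ∃ S : Finset ℝ, (∀ x ∈ S, x ∈ T) ∧ S.card = k ∧
      ∀ x ∈ S, ∀ y ∈ S, x < y → AntiR d T x y := by
  classical
  constructor
  · rintro ⟨S, rfl, hS⟩
    refine ⟨S.map (Function.Embedding.subtype _), ?_, by rw [Finset.card_map], ?_⟩
    · intro z hz
      obtain ⟨w, _, rfl⟩ := Finset.mem_map.mp hz
      exact w.2
    · intro x hx y hy hxy
      obtain ⟨i, hi, rfl⟩ := Finset.mem_map.mp hx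
      obtain ⟨j, hj, rfl⟩ := Finset.mem_map.mp hy
      exact (antiR_iff i j).mpr (hS i hi j hj hxy)
  · rintro ⟨S, hT, rfl, hS⟩
    have e : (S.subtype (· ∈ T)).map (Function.Embedding.subtype _) = S :=
      Finset.subtype_map_of_mem hT
    refine ⟨S.subtype (· ∈ T), ?_, ?_⟩
    · rw [← Finset.card_map (Function.Embedding.subtype _), e]
    · intro i hi j hj hij
      exact (antiR_iff i j).mp (hS i (Finset.mem_subtype.mp hi) j (Finset.mem_subtype.mp hj) hij)

/-- **Main theorem** for sets of reals. -/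
theorem mainR (hd : 2 ≤ d) (hT : IsCompact T) (hc : ∃ S : Finset ℝ, (∀ x ∈ S, x ∈ T) ∧
    d + 1 ≤ S.card) : ∃ m : ℕ,
    IsLeast {k | ∃ V : Finset (EuclideanSpace ℝ (Fin d)), V.card = k ∧
      IsIllum (hullR d T) V} m ∧
    IsGreatest {k | ∃ l : List ℝ, l.length = k ∧ (∀ x ∈ l, x ∈ T) ∧
      l.IsChain (fun x y => x < y ∧ LinkedR d T x y)} m ∧
    IsGreatest {k | ∃ S : Finset ℝ, (∀ x ∈ S, x ∈ T) ∧ S.card = k ∧
      ∀ x ∈ S, ∀ y ∈ S, x < y → AntiR d T x y} m ∧
    (∀ x ∈ T, ∀ y ∈ T, x < y → (LinkedR d T x y ↔ AntiR d T x y)) ∧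
    (∀ x' ∈ T, ∀ x ∈ T, ∀ y ∈ T, ∀ y' ∈ T, x' ≤ x → x < y → y ≤ y' → LinkedR d T x y →
      LinkedR d T x' y') ∧
    d + 1 ≤ m ∧ m ≤ 2 * d - 1 := by
  classical
  have : CompactSpace T := isCompact_iff_compactSpace.mp hT
  obtain ⟨S, hS, hn⟩ := hc
  have e : (S.subtype (· ∈ T)).map (Function.Embedding.subtype _) = S :=
    Finset.subtype_map_of_mem hS
  have hn' : d + 1 ≤ (S.subtype (· ∈ T)).card := by
    rw [← Finset.card_map (Function.Embedding.subtype _), e]; exact hn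
  obtain ⟨m, h1, h2, h3, h4, h5⟩ := main hd _ hn'
  refine ⟨m, ?_, ?_, ?_, ?_, ?_, h4, h5⟩
  · rw [← cyc_eq]; exact h1
  · simpa only [chain_iff] using h2
  · simpa only [anti_iff] using h3
  · intro x hx y hy hxy
    have h6 := linkedR_iff (d := d) (T := T) ⟨x, hx⟩ ⟨y, hy⟩
    have h7 := antiR_iff (d := d) (T := T) ⟨x, hx⟩ ⟨y, hy⟩
    rw [h6, h7]
    exact ⟨fun h => antipodal_of_linked (vl_mono T) _ hn' hxy h,
      fun h => linked_of_antipodal _ hn' hxy h⟩
  · intro x' hx' x hx y hy y' hy' h6 h7 h8 h9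
    have h10 := (linkedR_iff (d := d) (T := T) ⟨x, hx⟩ ⟨y, hy⟩).mp h9
    exact (linkedR_iff (d := d) (T := T) ⟨x', hx'⟩ ⟨y', hy'⟩).mpr
      (linked_mono (vl_mono T) _ hn' h6 h7 h8 h10)

end Pool.Agent.H78.Ill
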