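import Mathlib
import Pool.Agent.H78.Ill.CT
import Pool.Agent.H78.Ill.CJ

/-! The illumination numbers of the cyclic `d`-polytopes with `n` vertices. -/

set_option autoImplicit false
set_option linter.unusedSectionVars false

open Polynomial Filter Topology

namespace Pool.Agent.H78.Ill

theorem antiR_subset {d : ℕ} {F T : Set ℝ} (h : T ⊆ F) {x y : ℝ} (hxy : AntiR d F x y) :
    AntiR d T x y := by
  obtain ⟨f, h1, h2⟩ := hxy
  exact ⟨f, h1, fun z hz => h2 z (h hz)⟩

theorem ap_of_apR {d : ℕ} {F : Set ℝ} {x y : ℝ} (hx : x ∈ F) (hy : y ∈ F) (h : ApR d F x y) :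
    Ap d F ⟨x, hx⟩ ⟨y, hy⟩ := by
  obtain ⟨p, hp, h1, h2, h3⟩ := h
  refine ⟨fun k => p.coeff k, ?_, ?_, ?_⟩
  · rw [ev_of_poly p hp]; exact h1
  · rw [ev_of_poly p hp]; exact h2
  · intro k
    rw [ev_of_poly p hp]
    exact h3 k k.2

/-- points of a chain are pairwise antipodal -/
theorem chain_anti {d : ℕ} {F : Set ℝ} {c : ℕ → ℝ} {M : ℕ} (hM : d ≤ M) (hcF : ∀ i, i ≤ M → c i ∈ F)
    (hc : ∀ i, i < M → c i < c (i + 1) ∧ ApR d F (c i) (c (i + 1))) :
    ∀ i j, i < j → j ≤ M → c i < c j ∧ AntiR d F (c i) (c j) := by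
  classical
  have hlt : ∀ j i, i < j → j ≤ M → c i < c j := by
    intro j
    induction j with
    | zero => intro i h; omega
    | succ j ih =>
      intro i hi hj
      rcases Nat.lt_or_ge i j with h | h
      · exact (ih i h (by omega)).trans (hc j (by omega)).1
      · obtain rfl : i = j := by omega
        exact (hc i (by omega)).1
  -- a finite subset with at least d + 1 points
  set S : Finset F := (Finset.univ : Finset (Fin (M + 1))).image
    (fun i : Fin (M + 1) => (⟨c (i : ℕ), hcF i (Nat.lt_succ_iff.mp i.2)⟩ : F)) with hS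
  have hSc : S.card = M + 1 := by
    rw [hS, Finset.card_image_of_injective, Finset.card_univ, Fintype.card_fin]
    intro i j hij
    have h1 : c (i : ℕ) = c (j : ℕ) := congrArg Subtype.val hij
    rcases lt_trichotomy (i : ℕ) j with h | h | h
    · exact absurd h1 (hlt j i h (by omega)).ne
    · exact Fin.ext h
    · exact absurd h1 (hlt i j h (by omega)).ne'
  have hn : d + 1 ≤ S.card := by omega
  have key : ∀ j i, i < j → ∀ hj : j ≤ M, ∀ hi : i ≤ M,
      LinkRel d F ⟨c i, hcF i hi⟩ ⟨c j, hcF j hj⟩ := by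
    intro j
    induction j with
    | zero => intro i h; omega
    | succ j ih =>
      intro i hi hj hi'
      have h1 : LinkRel d F ⟨c j, hcF j (by omega)⟩ ⟨c (j + 1), hcF (j + 1) hj⟩ := by
        obtain ⟨h2, h3⟩ := hc j (by omega)
        have h2' : (⟨c j, hcF j (by omega)⟩ : F) < ⟨c (j + 1), hcF (j + 1) hj⟩ := h2
        exact ⟨h2', (ap_iff S hn h2').mp (ap_of_apR _ _ h3)⟩
      rcases Nat.lt_or_ge i j with h | h
      · exact linkRel_trans S hn (ih i h (by omega) hi') h1
      · obtain rfl : i = j := by omega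
        exact h1
  intro i j hij hj
  refine ⟨hlt j i hij hj, ?_⟩
  have h1 := key j i hij hj (by omega)
  exact (antiR_iff (d := d) (T := F) ⟨c i, _⟩ ⟨c j, _⟩).mpr
    (antipodal_of_linked (vl_mono F) S hn h1.1 h1.2)

theorem exists_value {d : ℕ} (hd : 2 ≤ d) {m n : ℕ} (h1 : d + 1 ≤ m) (h2 : m ≤ 2 * d - 1)
    (h3 : m ≤ n) : ∃ T : Finset ℝ, T.card = n ∧
      IsGreatest {k | ∃ S : Finset ℝ, (∀ x ∈ S, x ∈ (T : Set ℝ)) ∧ S.card = k ∧
        ∀ x ∈ S, ∀ y ∈ S, x < y → AntiR d (T : Set ℝ) x y} m := by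
  classical
  obtain ⟨c, F, δ, hδ, hcF, hc, hFδ, hδ1⟩ := config d hd
  have hanti := chain_anti (M := 2 * d - 2) (by omega) hcF hc
  -- the fixed points
  set Q' : Finset ℝ := (Finset.range m).image c with hQ'
  set Q : Finset ℝ := (Finset.Icc 1 (m - 1)).image c with hQ
  have hinj : ∀ i j, i ≤ 2 * d - 2 → j ≤ 2 * d - 2 → c i = c j → i = j := by
    intro i j hi hj hij
    rcases lt_trichotomy i j with h | h | h
    · exact absurd hij (hanti i j h hj).1.ne
    · exact h
    · exact absurd hij (hanti j i h hi).1.ne'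
  have hQ'c : Q'.card = m := by
    rw [hQ', Finset.card_image_of_injOn, Finset.card_range]
    intro i hi j hj hij
    rw [Finset.coe_range, Set.mem_Iio] at hi hj
    exact hinj i j (by omega) (by omega) hij
  have hQc : Q.card = m - 1 := by
    rw [hQ, Finset.card_image_of_injOn, Nat.card_Icc]
    · omega
    · intro i hi j hj hij
      rw [Finset.coe_Icc, Set.mem_Icc] at hi hj
      exact hinj i j (by omega) (by omega) hij
  have hQge : ∀ z ∈ Q, c 0 + δ ≤ z := by
    intro z hz
    obtain ⟨i, hi, rfl⟩ := Finset.mem_image.mp hz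
    rw [Finset.mem_Icc] at hi
    rcases Nat.lt_or_ge 1 i with h | h
    · exact hδ1.trans (hanti 1 i h (by omega)).1.le
    · obtain rfl : i = 1 := by omega
      exact hδ1
  have hQF : ∀ z ∈ Q, z ∈ F := by
    intro z hz
    obtain ⟨i, hi, rfl⟩ := Finset.mem_image.mp hz
    rw [Finset.mem_Icc] at hi
    exact hcF i (by omega)
  have hQ'Q : Q' ⊆ insert (c 0) Q := by
    intro z hz
    obtain ⟨i, hi, rfl⟩ := Finset.mem_image.mp hz
    rw [Finset.mem_range] at hi
    rcases Nat.eq_zero_or_pos i with h | h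
    · subst h; exact Finset.mem_insert_self _ _
    · exact Finset.mem_insert_of_mem (Finset.mem_image.mpr ⟨i, Finset.mem_Icc.mpr ⟨h, by omega⟩, rfl⟩)
  -- equicontinuity
  have hB : IsCompact {v : Fin (d + 1) → ℝ | ∀ k ∈ Q', 0 ≤ ev v (id k) ∧ ev v (id k) ≤ 1} :=
    isCompact_box (t := (id : ℝ → ℝ)) strictMono_id Q' (by omega)
  have hK := hB.prod (isCompact_Icc (a := c 0) (b := c 0 + δ))
  have huc := hK.uniformContinuousOn_of_continuous
    (f := fun p : (Fin (d + 1) → ℝ) × ℝ => ev p.1 p.2) continuous_ev2.continuousOn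
  rw [Metric.uniformContinuousOn_iff] at huc
  obtain ⟨δ2, hδ2, huc⟩ := huc 1 one_pos
  set δ' := min δ δ2 with hδ'
  have hδ'0 : 0 < δ' := lt_min hδ hδ2
  obtain ⟨Z', hZ', hZ'c⟩ := (Set.Ioo_infinite (show c 0 < c 0 + δ' by linarith)).exists_subset_card_eq
    (n - m)
  set Z : Finset ℝ := insert (c 0) Z' with hZ
  have hZm : ∀ z ∈ Z, c 0 ≤ z ∧ z < c 0 + δ' := by
    intro z hz
    rcases Finset.mem_insert.mp hz with rfl | hz
    · exact ⟨le_rfl, by linarith⟩
    · have := hZ' hz
      exact ⟨this.1.le, this.2⟩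
  have hZc : Z.card = n - m + 1 := by
    rw [hZ, Finset.card_insert_of_notMem, hZ'c]
    intro h
    exact lt_irrefl _ (hZ' h).1
  have hdisj : Disjoint Z Q := by
    rw [Finset.disjoint_left]
    intro z hz hz'
    have h4 := (hZm z hz).2
    have h5 := hQge z hz'
    have h6 := min_le_left δ δ2
    linarith
  set T : Finset ℝ := Z ∪ Q with hT
  have hTc : T.card = n := by
    rw [hT, Finset.card_union_of_disjoint hdisj, hZc, hQc]; omega
  have hTF : (T : Set ℝ) ⊆ F := by
    intro z hz
    rcases Finset.mem_union.mp (Finset.mem_coe.mp hz) with h | h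
    · apply hFδ
      have h4 := hZm z h
      have h6 := min_le_left δ δ2
      exact ⟨h4.1, by linarith⟩
    · exact hQF z h
  have hQ'T : ∀ z ∈ Q', z ∈ (T : Set ℝ) := by
    intro z hz
    rw [Finset.mem_coe, hT, Finset.mem_union]
    rcases Finset.mem_insert.mp (hQ'Q hz) with h | h
    · left; rw [h]; exact Finset.mem_insert_self _ _
    · right; exact h
  refine ⟨T, hTc, ⟨Q', hQ'T, hQ'c, ?_⟩, ?_⟩
  · intro x hx y hy hxy
    obtain ⟨i, hi, rfl⟩ := Finset.mem_image.mp hx
    obtain ⟨j, hj, rfl⟩ := Finset.mem_image.mp hy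
    rw [Finset.mem_range] at hi hj
    refine antiR_subset hTF ?_
    rcases lt_trichotomy i j with h | h | h
    · exact (hanti i j h (by omega)).2
    · subst h; exact absurd hxy (lt_irrefl _)
    · exact absurd (hanti j i h (by omega)).1 (not_lt.mpr hxy.le)
  · rintro k ⟨S, hST, rfl, hS⟩
    have hS1 : (S.filter (· ∈ Z)).card ≤ 1 := by
      rw [Finset.card_le_one]
      intro x hx y hy
      rw [Finset.mem_filter] at hx hy
      have main : ∀ z w : ℝ, z ∈ S → w ∈ S → z ∈ Z → w ∈ Z → ¬ z < w := by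
        intro z w hz hw hzZ hwZ hzw
        have ha := hS z hz w hw hzw
        set zz : (T : Set ℝ) := ⟨z, hST z hz⟩ with hzz
        set ww : (T : Set ℝ) := ⟨w, hST w hw⟩ with hww
        have hlt : zz < ww := hzw
        have e : (T.subtype (· ∈ (T : Set ℝ))).map (Function.Embedding.subtype _) = T :=
          Finset.subtype_map_of_mem (fun x hx => hx)
        have hn : d + 1 ≤ (T.subtype (· ∈ (T : Set ℝ))).card := by
          rw [← Finset.card_map (Function.Embedding.subtype _), e]; omega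
        obtain ⟨v, hv1, hv2, hv3⟩ := (ap_iff _ hn hlt).mpr
          (linked_of_antipodal _ hn hlt ((antiR_iff zz ww).mp ha))
        have hvB : v ∈ {v : Fin (d + 1) → ℝ | ∀ k ∈ Q', 0 ≤ ev v (id k) ∧ ev v (id k) ≤ 1} :=
          fun k hk => hv3 ⟨k, hQ'T k hk⟩
        obtain ⟨z1, z2⟩ := hZm z hzZ
        obtain ⟨w1, w2⟩ := hZm w hwZ
        have h4 := min_le_left δ δ2
        have h5 := min_le_right δ δ2
        have h6 := huc (v, z) ⟨hvB, ⟨z1, by linarith⟩⟩ (v, w) ⟨hvB, ⟨w1, by linarith⟩⟩ (by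
          rw [Prod.dist_eq, dist_self, max_eq_right dist_nonneg, Real.dist_eq, abs_lt]
          constructor <;> linarith)
        simp only at h6
        change ev v z = 0 at hv1
        change ev v w = 1 at hv2
        rw [hv1, hv2, Real.dist_eq] at h6
        norm_num at h6
      rcases lt_trichotomy x y with h | h | h
      · exact absurd h (main x y hx.1 hy.1 hx.2 hy.2)
      · exact h
      · exact absurd h (main y x hy.1 hx.1 hy.2 hx.2)
    have hS2 : (S.filter (· ∉ Z)).card ≤ m - 1 := by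
      rw [← hQc]
      apply Finset.card_le_card
      intro x hx
      rw [Finset.mem_filter] at hx
      rcases Finset.mem_union.mp (Finset.mem_coe.mp (hST x hx.1)) with h | h
      · exact absurd h hx.2
      · exact h
    have := Finset.card_filter_add_card_filter_not (s := S) (· ∈ Z)
    omega

end Pool.Agent.H78.Ill
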