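import Mathlib
import Pool.Agent.H78.Ill.CK

/-! Fine parameter sets. -/

set_option autoImplicit false
set_option linter.unusedSectionVars false

open Polynomial Filter Topology

namespace Pool.Agent.H78.Ill

variable {d : ℕ} {a b : ℝ}

/-- coefficients of the constant `1` -/
def e0 (d : ℕ) : Fin (d + 1) → ℝ := fun k => if k = 0 then 1 else 0

theorem ev_e0 (x : ℝ) : ev (e0 d) x = 1 := by
  unfold ev e0
  rw [Finset.sum_eq_single 0]
  · simp
  · intro k _ hk; simp [hk]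
  · intro h; exact absurd (Finset.mem_univ _) h

theorem ev_smul (r : ℝ) (c : Fin (d + 1) → ℝ) (x : ℝ) : ev (r • c) x = r * ev c x := by
  have := ev_add_smul c 0 r 0 x
  simpa using this

theorem ev_cont (c : Fin (d + 1) → ℝ) : Continuous fun x => ev c x := by
  unfold ev; fun_prop

/-- bounded sets of polynomials are compact -/
theorem bounded_compact (hab : a < b) (M : ℝ) (hM : 0 < M) :
    IsCompact {c : Fin (d + 1) → ℝ | ∀ z ∈ Set.Icc a b, |ev c z| ≤ M} := by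
  obtain ⟨S, hS, hSc⟩ := (Set.Icc_infinite hab).exists_subset_card_eq (d + 1)
  have hbox := isCompact_box (d := d) (t := (id : ℝ → ℝ)) strictMono_id S hSc.ge
  have himg := hbox.image (f := fun c : Fin (d + 1) → ℝ => (2 * M) • c + (-M) • e0 d)
    (by fun_prop)
  refine himg.of_isClosed_subset ?_ ?_
  · have e : {c : Fin (d + 1) → ℝ | ∀ z ∈ Set.Icc a b, |ev c z| ≤ M} =
        ⋂ z ∈ Set.Icc a b, {c : Fin (d + 1) → ℝ | |ev c z| ≤ M} := by
      ext c; simp
    rw [e]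
    exact isClosed_biInter fun z _ => isClosed_le (continuous_ev z).abs continuous_const
  · intro c hc
    refine ⟨(2 * M)⁻¹ • c + (1 / 2 : ℝ) • e0 d, ?_, ?_⟩
    · intro k hk
      have h1 := abs_le.mp (hc k (hS hk))
      simp only [id]
      rw [ev_add_smul, ev_e0]
      have h2 : (2 * M)⁻¹ * M = 1 / 2 := by field_simp
      have h3 : 0 < (2 * M)⁻¹ := by positivity
      constructor
      · have := mul_le_mul_of_nonneg_left h1.1 h3.le
        linarith
      · have := mul_le_mul_of_nonneg_left h1.2 h3.le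
        linarith
    · simp only
      rw [smul_add, smul_smul, smul_smul, mul_inv_cancel₀ (by positivity), one_smul,
        show 2 * M * (1 / 2) = M by ring, add_assoc, ← add_smul, add_neg_cancel, zero_smul,
        add_zero]

theorem equicont (hab : a < b) {ω : ℝ} (hω : 0 < ω) : ∃ δ > 0, ∀ c : Fin (d + 1) → ℝ,
    (∀ z ∈ Set.Icc a b, |ev c z| ≤ 1) → ∀ z ∈ Set.Icc a b, ∀ w ∈ Set.Icc a b, |z - w| < δ →
      |ev c z - ev c w| < ω := by
  have hK := (bounded_compact (d := d) hab 1 one_pos).prod (isCompact_Icc (a := a) (b := b))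
  have huc := hK.uniformContinuousOn_of_continuous
    (f := fun p : (Fin (d + 1) → ℝ) × ℝ => ev p.1 p.2) continuous_ev2.continuousOn
  rw [Metric.uniformContinuousOn_iff] at huc
  obtain ⟨δ, hδ, huc⟩ := huc ω hω
  refine ⟨δ, hδ, fun c hc z hz w hw hzw => ?_⟩
  have := huc (c, z) ⟨hc, hz⟩ (c, w) ⟨hc, hw⟩ (by
    rw [Prod.dist_eq, dist_self, max_eq_right dist_nonneg, Real.dist_eq]; exact hzw)
  rwa [Real.dist_eq] at this

/-- polynomials with values in `[0, 1]` on a fine set -/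
theorem almost (hab : a < b) {ω : ℝ} (hω : 0 < ω) : ∃ δ > 0, ∀ T : Set ℝ, T ⊆ Set.Icc a b →
    (∀ z ∈ Set.Icc a b, ∃ w ∈ T, |z - w| < δ) → ∀ c : Fin (d + 1) → ℝ,
    (∀ z ∈ T, 0 ≤ ev c z ∧ ev c z ≤ 1) → ∀ z ∈ Set.Icc a b, -ω ≤ ev c z ∧ ev c z ≤ 1 + ω := by
  obtain ⟨δ, hδ, hec⟩ := equicont (d := d) hab (show 0 < min (1 / 2) (ω / 2) by positivity)
  refine ⟨δ, hδ, fun T hT hfine c hc => ?_⟩
  obtain ⟨z0, hz0, hmax⟩ := (isCompact_Icc (a := a) (b := b)).exists_isMaxOn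
    (Set.nonempty_Icc.mpr hab.le) (ev_cont c).abs.continuousOn
  have hmax' : ∀ z ∈ Set.Icc a b, |ev c z| ≤ |ev c z0| := fun z hz => hmax hz
  have hM : |ev c z0| ≤ 2 := by
    by_contra hcon
    push Not at hcon
    have hpos : 0 < |ev c z0| := by linarith
    obtain ⟨w, hw, hzw⟩ := hfine z0 hz0
    have h1 := hec (|ev c z0|⁻¹ • c) (by
      intro z hz
      rw [ev_smul, abs_mul, abs_inv, abs_abs, inv_mul_le_iff₀ hpos, mul_one]
      exact hmax' z hz) z0 hz0 w (hT hw) hzw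
    rw [ev_smul, ev_smul, ← mul_sub, abs_mul, abs_inv, abs_abs, inv_mul_lt_iff₀ hpos] at h1
    have h2 : |ev c z0| * min (1 / 2) (ω / 2) ≤ |ev c z0| * (1 / 2) :=
      mul_le_mul_of_nonneg_left (min_le_left _ _) hpos.le
    have h3 : |ev c w| ≤ 1 := abs_le.mpr ⟨by linarith [(hc w hw).1], (hc w hw).2⟩
    have h4 := abs_sub_abs_le_abs_sub (ev c z0) (ev c w)
    linarith
  intro z hz
  obtain ⟨w, hw, hzw⟩ := hfine z hz
  have h1 := hec ((2 : ℝ)⁻¹ • c) (by
    intro z hz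
    rw [ev_smul, abs_mul, abs_of_pos (by norm_num : (0:ℝ) < 2⁻¹)]
    have := hmax' z hz
    linarith) z hz w (hT hw) hzw
  rw [ev_smul, ev_smul, ← mul_sub, abs_mul, abs_of_pos (by norm_num : (0:ℝ) < 2⁻¹)] at h1
  have h2 := min_le_right (1 / 2) (ω / 2)
  have h3 : |ev c z - ev c w| < ω := by linarith
  rw [abs_lt] at h3
  have h4 := hc w hw
  constructor <;> linarith

/-- approximate antipodal sets -/
def KK (d : ℕ) (a b : ℝ) (ω : ℝ) :
    Set ((Fin (d + 2) → ℝ) × (Fin (d + 2) → Fin (d + 2) → (Fin (d + 1) → ℝ))) :=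
  {p | (∀ i, p.1 i ∈ Set.Icc a b) ∧ (∀ i j, ∀ z ∈ Set.Icc a b, -ω ≤ ev (p.2 i j) z ∧
    ev (p.2 i j) z ≤ 1 + ω) ∧ ∀ i j, i < j → p.1 i ≤ p.1 j ∧ ev (p.2 i j) (p.1 i) = 0 ∧
    ev (p.2 i j) (p.1 j) = 1}

theorem KK_closed (ω : ℝ) : IsClosed (KK d a b ω) := by
  have c1 : ∀ i, Continuous fun p : (Fin (d + 2) → ℝ) ×
      (Fin (d + 2) → Fin (d + 2) → (Fin (d + 1) → ℝ)) => p.1 i := fun i => by fun_prop
  have c2 : ∀ i j, Continuous fun p : (Fin (d + 2) → ℝ) ×
      (Fin (d + 2) → Fin (d + 2) → (Fin (d + 1) → ℝ)) => p.2 i j := fun i j => by fun_prop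
  have c3 : ∀ i j z, Continuous fun p : (Fin (d + 2) → ℝ) ×
      (Fin (d + 2) → Fin (d + 2) → (Fin (d + 1) → ℝ)) => ev (p.2 i j) z := fun i j z =>
    (continuous_ev z).comp (c2 i j)
  have c4 : ∀ i j k, Continuous fun p : (Fin (d + 2) → ℝ) ×
      (Fin (d + 2) → Fin (d + 2) → (Fin (d + 1) → ℝ)) => ev (p.2 i j) (p.1 k) := fun i j k =>
    continuous_ev2.comp ((c2 i j).prodMk (c1 k))
  have e : KK d a b ω = (⋂ i, {p | p.1 i ∈ Set.Icc a b}) ∩ ((⋂ i, ⋂ j, ⋂ z ∈ Set.Icc a b,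
      {p | -ω ≤ ev (p.2 i j) z ∧ ev (p.2 i j) z ≤ 1 + ω}) ∩ ⋂ i, ⋂ j, ⋂ (_ : i < j),
      {p | p.1 i ≤ p.1 j ∧ ev (p.2 i j) (p.1 i) = 0 ∧ ev (p.2 i j) (p.1 j) = 1}) := by
    ext p
    simp only [KK, Set.mem_inter_iff, Set.mem_iInter]
    exact Iff.rfl
  rw [e]
  refine IsClosed.inter (isClosed_iInter fun i => isClosed_Icc.preimage (c1 i))
    (IsClosed.inter ?_ ?_)
  · refine isClosed_iInter fun i => isClosed_iInter fun j => isClosed_biInter fun z _ => ?_
    exact (isClosed_le continuous_const (c3 i j z)).inter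
      (isClosed_le (c3 i j z) continuous_const)
  · refine isClosed_iInter fun i => isClosed_iInter fun j => isClosed_iInter fun _ => ?_
    exact (isClosed_le (c1 i) (c1 j)).inter
      ((isClosed_eq (c4 i j i) continuous_const).inter (isClosed_eq (c4 i j j) continuous_const))

theorem KK_compact (hab : a < b) {ω : ℝ} (hω : 0 < ω) : IsCompact (KK d a b ω) := by
  have h1 : IsCompact ((Set.pi Set.univ fun _ : Fin (d + 2) => Set.Icc a b) ×ˢ
      (Set.pi Set.univ fun _ : Fin (d + 2) => Set.pi Set.univ fun _ : Fin (d + 2) =>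
        {c : Fin (d + 1) → ℝ | ∀ z ∈ Set.Icc a b, |ev c z| ≤ 1 + ω})) :=
    (isCompact_univ_pi fun _ => isCompact_Icc).prod
      (isCompact_univ_pi fun _ => isCompact_univ_pi fun _ => bounded_compact hab _ (by linarith))
  refine h1.of_isClosed_subset (KK_closed ω) ?_
  rintro p ⟨h2, h3, _⟩
  refine ⟨fun i _ => h2 i, fun i _ j _ z hz => ?_⟩
  have := h3 i j z hz
  rw [abs_le]
  constructor <;> linarith

theorem KK_mono {ω ω' : ℝ} (h : ω ≤ ω') : KK d a b ω ⊆ KK d a b ω' := by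
  rintro p ⟨h1, h2, h3⟩
  refine ⟨h1, fun i j z hz => ?_, h3⟩
  have := h2 i j z hz
  constructor <;> linarith

/-- antipodal points of an arc: at most `d + 1` -/
theorem arc_antipodal (hd : 2 ≤ d) (hab : a < b) {k : ℕ}
    (h : ∃ S : Finset ℝ, (∀ x ∈ S, x ∈ Set.Icc a b) ∧ S.card = k ∧
      ∀ x ∈ S, ∀ y ∈ S, x < y → AntiR d (Set.Icc a b) x y) : k ≤ d + 1 := by
  obtain ⟨S, hS, hSc⟩ := (Set.Icc_infinite hab).exists_subset_card_eq (d + 1)
  obtain ⟨m, h1, _, h3, _⟩ := mainR hd (isCompact_Icc (a := a) (b := b))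
    ⟨S, fun x hx => hS hx, hSc.ge⟩
  have h4 := arc d hd hab
  rw [cyc_eq] at h4
  have h5 : m = d + 1 := h1.unique h4
  rw [h5] at h3
  exact h3.2 h

theorem exists_KK_empty (hd : 2 ≤ d) (hab : a < b) : ∃ ω > 0, KK d a b ω = ∅ := by
  classical
  by_contra hcon
  push Not at hcon
  have hpos : ∀ n : ℕ, (0:ℝ) < 1 / ((n : ℝ) + 1) := fun n => by positivity
  obtain ⟨p, hp⟩ := IsCompact.nonempty_iInter_of_sequence_nonempty_isCompact_isClosed
    (fun n : ℕ => KK d a b (1 / ((n : ℝ) + 1)))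
    (fun n => KK_mono (by
      apply one_div_le_one_div_of_le (by positivity)
      push_cast
      linarith))
    (fun n => hcon _ (hpos n))
    (KK_compact hab (hpos 0)) (fun n => KK_closed _)
  rw [Set.mem_iInter] at hp
  have hval : ∀ i j, ∀ z ∈ Set.Icc a b, 0 ≤ ev (p.2 i j) z ∧ ev (p.2 i j) z ≤ 1 := by
    intro i j z hz
    constructor
    · refine le_of_forall_pos_le_add fun ε hε => ?_
      obtain ⟨n, hn⟩ := exists_nat_one_div_lt hε
      have := ((hp n).2.1 i j z hz).1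
      linarith
    · refine le_of_forall_pos_le_add fun ε hε => ?_
      obtain ⟨n, hn⟩ := exists_nat_one_div_lt hε
      have := ((hp n).2.1 i j z hz).2
      linarith
  have h0 := hp 0
  have hlt : ∀ i j, i < j → p.1 i < p.1 j := by
    intro i j hij
    obtain ⟨h1, h2, h3⟩ := h0.2.2 i j hij
    refine lt_of_le_of_ne h1 fun h => ?_
    rw [h, h3] at h2
    exact one_ne_zero h2
  have hanti : ∀ i j, i < j → AntiR d (Set.Icc a b) (p.1 i) (p.1 j) := by
    intro i j hij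
    obtain ⟨h1, h2, h3⟩ := h0.2.2 i j hij
    refine (antiR_iff (d := d) (T := Set.Icc a b) ⟨p.1 i, h0.1 i⟩ ⟨p.1 j, h0.1 j⟩).mpr ?_
    exact antipodal_of_ap ⟨p.2 i j, h2, h3, fun k => hval i j k k.2⟩
  have hinj : Function.Injective p.1 := by
    intro i j hij
    rcases lt_trichotomy i j with h | h | h
    · exact absurd hij (hlt i j h).ne
    · exact h
    · exact absurd hij (hlt j i h).ne'
  have := arc_antipodal hd hab (k := d + 2) ⟨Finset.univ.image p.1, by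
      intro x hx
      obtain ⟨i, _, rfl⟩ := Finset.mem_image.mp hx
      exact h0.1 i, by
      rw [Finset.card_image_of_injective _ hinj, Finset.card_univ, Fintype.card_fin], by
      intro x hx y hy hxy
      obtain ⟨i, _, rfl⟩ := Finset.mem_image.mp hx
      obtain ⟨j, _, rfl⟩ := Finset.mem_image.mp hy
      rcases lt_trichotomy i j with h | h | h
      · exact hanti i j h
      · subst h; exact absurd hxy (lt_irrefl _)
      · exact absurd (hlt j i h) (not_lt.mpr hxy.le)⟩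
  omega

/-- antipodal pairs give polynomials -/
theorem ap_of_antiR {T : Set ℝ} (hc : ∃ S : Finset ℝ, (∀ x ∈ S, x ∈ T) ∧ d + 1 ≤ S.card)
    {x y : ℝ} (hx : x ∈ T) (hy : y ∈ T) (hxy : x < y) (h : AntiR d T x y) :
    Ap d T ⟨x, hx⟩ ⟨y, hy⟩ := by
  classical
  obtain ⟨S, hS, hn⟩ := hc
  have e : (S.subtype (· ∈ T)).map (Function.Embedding.subtype _) = S :=
    Finset.subtype_map_of_mem hS
  have hn' : d + 1 ≤ (S.subtype (· ∈ T)).card := by
    rw [← Finset.card_map (Function.Embedding.subtype _), e]; exact hn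
  have hlt : (⟨x, hx⟩ : T) < ⟨y, hy⟩ := hxy
  exact (ap_iff _ hn' hlt).mpr (linked_of_antipodal _ hn' hlt ((antiR_iff ⟨x, hx⟩ ⟨y, hy⟩).mp h))

/-- **Fine parameter sets.** -/
theorem fine (hd : 2 ≤ d) (hab : a < b) : ∃ δ > 0, ∀ T : Set ℝ, T ⊆ Set.Icc a b →
    (∃ S : Finset ℝ, (∀ x ∈ S, x ∈ T) ∧ d + 1 ≤ S.card) →
    (∀ z ∈ Set.Icc a b, ∃ w ∈ T, |z - w| < δ) →
    ∀ S : Finset ℝ, (∀ x ∈ S, x ∈ T) → (∀ x ∈ S, ∀ y ∈ S, x < y → AntiR d T x y) →
      S.card ≤ d + 1 := by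
  classical
  obtain ⟨ω, hω, hempty⟩ := exists_KK_empty (d := d) hd hab
  obtain ⟨δ, hδ, hal⟩ := almost (d := d) hab hω
  refine ⟨δ, hδ, fun T hT hc hfine S hS hanti => ?_⟩
  by_contra hcon
  push Not at hcon
  obtain ⟨S', hS', hS'c⟩ := Finset.exists_subset_card_eq (show d + 2 ≤ S.card by omega)
  set x : Fin (d + 2) → ℝ := fun i => S'.orderEmbOfFin hS'c i with hx
  have hxS : ∀ i, x i ∈ S := fun i => hS' (S'.orderEmbOfFin_mem hS'c i)
  have hxT : ∀ i, x i ∈ T := fun i => hS _ (hxS i)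
  have hlt : ∀ i j, i < j → x i < x j := fun i j h => (S'.orderEmbOfFin hS'c).strictMono h
  have hap : ∀ i j, ∃ c : Fin (d + 1) → ℝ, (∀ z ∈ T, 0 ≤ ev c z ∧ ev c z ≤ 1) ∧
      (i < j → ev c (x i) = 0 ∧ ev c (x j) = 1) := by
    intro i j
    by_cases hij : i < j
    · obtain ⟨c, h1, h2, h3⟩ := ap_of_antiR hc (hxT i) (hxT j) (hlt i j hij)
        (hanti _ (hxS i) _ (hxS j) (hlt i j hij))
      exact ⟨c, fun z hz => h3 ⟨z, hz⟩, fun _ => ⟨h1, h2⟩⟩
    · refine ⟨0, fun z _ => ?_, fun h => absurd h hij⟩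
      have : ev (0 : Fin (d + 1) → ℝ) z = 0 := by simp [ev]
      rw [this]
      exact ⟨le_rfl, zero_le_one⟩
  choose v hv using hap
  have : (x, v) ∈ KK d a b ω := by
    refine ⟨fun i => hT (hxT i), fun i j => hal T hT hfine (v i j) (hv i j).1, ?_⟩
    intro i j hij
    exact ⟨(hlt i j hij).le, (hv i j).2 hij⟩
  rw [hempty] at this
  exact this

end Pool.Agent.H78.Ill
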