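import Mathlib
import Pool.Agent.H78.Ill.CL

/-! Equally spaced parameters. -/

set_option autoImplicit false
set_option linter.unusedSectionVars false

open scoped RealInnerProductSpace

namespace Pool.Agent.H78.Ill

variable {d : ℕ}

theorem antiR_scale {T : Set ℝ} {s x y : ℝ} (hs : 0 < s) (h : AntiR d T x y) :
    AntiR d ((fun z => s * z) '' T) (s * x) (s * y) := by
  obtain ⟨f, h1, h2⟩ := h
  have key : ∀ z : ℝ, ⟪(WithLp.toLp 2 (fun k : Fin d => f k / s ^ ((k : ℕ) + 1)) :
      EuclideanSpace ℝ (Fin d)), moment d (s * z)⟫ = ⟪f, moment d z⟫ := by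
    intro z
    rw [inner_moment, inner_moment]
    refine Finset.sum_congr rfl fun k _ => ?_
    have : s ^ ((k : ℕ) + 1) ≠ 0 := by positivity
    simp only
    rw [mul_pow]
    field_simp
  refine ⟨WithLp.toLp 2 (fun k : Fin d => f k / s ^ ((k : ℕ) + 1)), ?_, ?_⟩
  · rw [key, key]; exact h1
  · rintro _ ⟨z, hz, rfl⟩
    simp only
    rw [key, key, key]
    exact h2 z hz

/-- equally spaced parameters: antipodal sets have at most `d + 1` members -/
theorem equally_spaced (hd : 2 ≤ d) : ∃ n0 : ℕ, ∀ n : ℕ, n0 ≤ n → ∀ S : Finset ℝ,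
    (∀ x ∈ S, x ∈ Set.range (fun i : Fin n => ((i : ℕ) : ℝ))) →
    (∀ x ∈ S, ∀ y ∈ S, x < y → AntiR d (Set.range (fun i : Fin n => ((i : ℕ) : ℝ))) x y) →
      S.card ≤ d + 1 := by
  classical
  obtain ⟨δ, hδ, hfine⟩ := fine (d := d) hd (show (0:ℝ) < 1 by norm_num)
  obtain ⟨n1, hn1⟩ := exists_nat_one_div_lt hδ
  refine ⟨n1 + d + 3, fun n hn S hS hanti => ?_⟩
  set T : Set ℝ := Set.range (fun i : Fin n => ((i : ℕ) : ℝ)) with hT
  have hn2 : (n1 : ℝ) + d + 3 ≤ n := by exact_mod_cast hn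
  have hd0 : (0:ℝ) ≤ d := Nat.cast_nonneg d
  have hn10 : (0:ℝ) ≤ n1 := Nat.cast_nonneg n1
  set s : ℝ := 1 / ((n : ℝ) - 1) with hs
  have hn3 : (0:ℝ) < (n : ℝ) - 1 := by linarith
  have hs0 : 0 < s := by positivity
  have hsn : s * ((n : ℝ) - 1) = 1 := by rw [hs]; field_simp
  have hsδ : s < δ := by
    refine lt_of_le_of_lt ?_ hn1
    rw [hs]
    apply one_div_le_one_div_of_le (by linarith) (by linarith)
  have hinj : Function.Injective (fun z : ℝ => s * z) := fun z w h =>
    mul_left_cancel₀ hs0.ne' h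
  have h1 := hfine ((fun z => s * z) '' T) (by
      rintro _ ⟨_, ⟨i, rfl⟩, rfl⟩
      have hi : ((i : ℕ) : ℝ) + 1 ≤ n := by exact_mod_cast i.2
      have hi0 : (0:ℝ) ≤ ((i : ℕ) : ℝ) := Nat.cast_nonneg _
      simp only
      constructor
      · positivity
      · nlinarith) ⟨((Finset.univ : Finset (Fin n)).image (fun i : Fin n => s * ((i : ℕ) : ℝ))), by
        intro x hx
        obtain ⟨i, _, rfl⟩ := Finset.mem_image.mp hx
        exact ⟨_, ⟨i, rfl⟩, rfl⟩, by
        rw [Finset.card_image_of_injective, Finset.card_univ, Fintype.card_fin]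
        · omega
        · intro i j hij
          have := hinj hij
          simp only [Nat.cast_inj] at this
          exact Fin.ext this⟩ (by
      intro z hz
      have hz1 : 0 ≤ z * ((n : ℝ) - 1) := mul_nonneg hz.1 hn3.le
      have hz2 : z * ((n : ℝ) - 1) ≤ (n : ℝ) - 1 := by nlinarith [hz.2]
      set i : ℕ := ⌊z * ((n : ℝ) - 1)⌋₊ with hi
      have hi1 : (i : ℝ) ≤ z * ((n : ℝ) - 1) := Nat.floor_le hz1
      have hi2 : z * ((n : ℝ) - 1) < i + 1 := Nat.lt_floor_add_one _
      have hin : i < n := by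
        have : (i : ℝ) < n := by linarith
        exact_mod_cast this
      refine ⟨s * (i : ℝ), ⟨_, ⟨⟨i, hin⟩, rfl⟩, rfl⟩, ?_⟩
      have e : z = s * (z * ((n : ℝ) - 1)) := by
        rw [mul_comm z, ← mul_assoc, hsn, one_mul]
      have h4 : z - s * i = s * (z * ((n : ℝ) - 1) - i) := by
        rw [mul_sub, ← e]
      rw [h4, abs_mul, abs_of_pos hs0, abs_of_nonneg (by linarith)]
      nlinarith) (S.image (fun z => s * z)) (by
      intro x hx
      obtain ⟨z, hz, rfl⟩ := Finset.mem_image.mp hx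
      exact ⟨z, hS z hz, rfl⟩) (by
      intro x hx y hy hxy
      obtain ⟨z, hz, rfl⟩ := Finset.mem_image.mp hx
      obtain ⟨w, hw, rfl⟩ := Finset.mem_image.mp hy
      exact antiR_scale hs0 (hanti z hz w hw (lt_of_mul_lt_mul_left hxy hs0.le)))
  rwa [Finset.card_image_of_injective _ hinj] at h1

end Pool.Agent.H78.Ill
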